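import Pool.Agent.Y456.GJ.Mult

set_option autoImplicit false

/-!
# The field of fractions of a polynomial ring with an additive shift
-/

open MvPolynomial MonomialOrder

namespace Pool.Agent.Y456.DF

open Pool.Agent.Y456.GJ (sh leadingCoeff_sh)

variable {K : Type*} [Field K] {σ : Type*} [LinearOrder σ] [WellFoundedGT σ] (τ : K →+* K) (b : σ → K)

theorem sh_inj : Function.Injective (sh τ b) := by
  rw [injective_iff_map_eq_zero]
  intro F hF
  have h1 := leadingCoeff_sh τ b F
  rw [hF, MonomialOrder.leadingCoeff_zero] at h1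
  have h2 := (map_eq_zero_iff _ τ.injective).1 h1.symm
  exact (degLex (σ := σ)).leadingCoeff_eq_zero_iff.1 h2

/-- the shift on the field of fractions -/
noncomputable def shK : FractionRing (MvPolynomial σ K) →+* FractionRing (MvPolynomial σ K) :=
  IsFractionRing.map (sh_inj τ b)

theorem shK_alg (p : MvPolynomial σ K) :
    shK τ b (algebraMap (MvPolynomial σ K) (FractionRing (MvPolynomial σ K)) p) = algebraMap _ _ (sh τ b p) := by
  rw [shK, IsFractionRing.map, IsLocalization.map_eq]

theorem fr_inj : Function.Injective (algebraMap (MvPolynomial σ K) (FractionRing (MvPolynomial σ K))) :=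
  IsFractionRing.injective _ _

/-- the multiplicative condition for the field of fractions -/
theorem H_frac (a : K) (ha : a ≠ 0) (H : ∀ (v : K) (e : ℕ), v ≠ 0 → τ v = a ^ e * v → e = 0)
    (v : FractionRing (MvPolynomial σ K)) (e : ℕ) (hv : v ≠ 0)
    (h : shK τ b v = algebraMap (MvPolynomial σ K) (FractionRing (MvPolynomial σ K)) (C a) ^ e * v) : e = 0 := by
  obtain ⟨p, q, hq, hu⟩ := IsFractionRing.div_surjective (A := MvPolynomial σ K) v
  have hq0 : q ≠ 0 := mem_nonZeroDivisors_iff_ne_zero.1 hq
  have hqi : algebraMap (MvPolynomial σ K) (FractionRing (MvPolynomial σ K)) q ≠ 0 := (map_ne_zero_iff _ fr_inj).2 hq0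
  have hp0 : p ≠ 0 := by
    rintro rfl
    rw [map_zero, zero_div] at hu
    exact hv hu.symm
  have hu' : v * algebraMap (MvPolynomial σ K) (FractionRing (MvPolynomial σ K)) q = algebraMap _ _ p := by
    rw [← hu]
    exact div_mul_cancel₀ _ hqi
  have h1 : sh τ b p * q = C (a ^ e) * p * sh τ b q := by
    apply fr_inj
    rw [C_pow]
    simp only [map_mul, map_pow]
    rw [← shK_alg, ← shK_alg, ← hu', map_mul, h]
    ring
  have h2 := congrArg (degLex (σ := σ)).leadingCoeff h1
  rw [MonomialOrder.leadingCoeff_mul, MonomialOrder.leadingCoeff_mul, MonomialOrder.leadingCoeff_mul,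
    leadingCoeff_sh, leadingCoeff_sh, MonomialOrder.leadingCoeff_C] at h2
  set r := (degLex (σ := σ)).leadingCoeff p with hr
  set s := (degLex (σ := σ)).leadingCoeff q with hs
  have hr0 : r ≠ 0 := (degLex (σ := σ)).leadingCoeff_ne_zero_iff.2 hp0
  have hs0 : s ≠ 0 := (degLex (σ := σ)).leadingCoeff_ne_zero_iff.2 hq0
  have hτs : τ s ≠ 0 := (map_ne_zero τ).2 hs0
  apply H (r / s) e (div_ne_zero hr0 hs0)
  rw [map_div₀]
  field_simp
  linear_combination h2

end Pool.Agent.Y456.DF
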