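import Pool.Agent.Y456.DF.Inf
import Pool.Agent.Y456.GJ.Rat

set_option autoImplicit false

/-!
# The conditions of non-degeneracy over the field generated by `z` and the `log (z + i)`
-/

open MvPolynomial

namespace Pool.Agent.Y456.DF

open Pool.Agent.Y456.GJ (tau tau_alg tau_const XX XX_ne alg_inj H_add H_mul)

/-- complex constants -/
noncomputable def cs (c : ℂ) : RatFunc ℂ := algebraMap (Polynomial ℂ) (RatFunc ℂ) (Polynomial.C c)

theorem cs_zero : cs 0 = 0 := by simp [cs]

theorem cs_inj {c : ℂ} (h : cs c = 0) : c = 0 := by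
  rw [cs, map_eq_zero_iff _ alg_inj, map_eq_zero_iff _ Polynomial.C_injective] at h
  exact h

theorem tau_cs (c : ℂ) : tau (cs c) = cs c := by
  rw [cs, tau_alg]
  simp [Pool.Agent.Y456.GJ.sp]

/-- the constants of the large field -/
theorem const_Ki (u : Ki (RatFunc ℂ)) (h : tK tau u = u) : ∃ c : ℂ, u = io (C (cs c)) := by
  obtain ⟨r, rfl⟩ := descend tau u 1 0 (fun n => by rw [map_zero]) (by rw [h]; simp)
  rw [tK_io, tA_C] at h
  have h1 := C_injective _ _ (io_inj h)
  obtain ⟨c, hc⟩ := tau_const r h1
  exact ⟨c, by rw [hc]; rfl⟩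

/-- the multiplicative condition -/
theorem HK_mul (v : Ki (RatFunc ℂ)) (e : ℕ) (hv : v ≠ 0) (h : tK tau v = io (C XX) ^ e * v) : e = 0 := by
  obtain ⟨r, rfl⟩ := descend tau v (XX ^ e) 0 (fun n => by rw [map_zero]) (by rw [h]; simp)
  have hr : r ≠ 0 := by
    rintro rfl
    simp at hv
  apply H_mul r e hr
  rw [tK_io, tA_C, ← map_pow, ← map_mul, ← C_pow, ← C_mul] at h
  exact C_injective _ _ (io_inj h)

theorem zpow_indep {σ : Type*} (S : Finset σ) (κ : σ → ℤ) (hκ : Set.InjOn κ S) (c : σ → ℂ)
    (h : ∑ s ∈ S, cs (c s) * XX ^ κ s = 0) : ∀ s ∈ S, c s = 0 := by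
  classical
  obtain ⟨M, hM⟩ : ∃ M : ℕ, ∀ s ∈ S, 0 ≤ κ s + M := by
    refine ⟨∑ s ∈ S, (κ s).natAbs, fun s hs => ?_⟩
    have h1 : (κ s).natAbs ≤ ∑ s ∈ S, (κ s).natAbs :=
      Finset.single_le_sum (f := fun s => (κ s).natAbs) (fun _ _ => Nat.zero_le _) hs
    omega
  have h2 : ∑ s ∈ S, Polynomial.C (c s) * Polynomial.X ^ (κ s + M).toNat = 0 := by
    apply alg_inj
    rw [map_sum, map_zero]
    have h3 : (∑ s ∈ S, cs (c s) * XX ^ κ s) * XX ^ M = 0 := by rw [h, zero_mul]
    rw [← h3, Finset.sum_mul]
    refine Finset.sum_congr rfl fun s hs => ?_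
    rw [map_mul, map_pow]
    have h4 : XX ^ (κ s + M).toNat = XX ^ κ s * XX ^ M := by
      rw [← zpow_natCast, ← zpow_natCast, ← zpow_add₀ XX_ne, Int.toNat_of_nonneg (hM s hs)]
    rw [← XX, h4, mul_assoc]
    rfl
  intro s hs
  have h3 := congrArg (fun p => Polynomial.coeff p (κ s + M).toNat) h2
  simp only [Polynomial.finsetSum_coeff, Polynomial.coeff_C_mul, Polynomial.coeff_X_pow, Polynomial.coeff_zero] at h3
  rw [Finset.sum_eq_single s] at h3
  · simpa using h3
  · intro s' hs' hne
    rw [if_neg, mul_zero]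
    intro h4
    apply hne
    apply hκ hs' hs
    have h5 := hM s hs
    have h6 := hM s' hs'
    omega
  · intro h4
    exact absurd hs h4

variable {σ : Type*} [Fintype σ] (J : σ → ℕ) (κ : σ → ℤ)

/-- the increments `z ^ κ (log z) ^ J` -/
noncomputable def inc (s : σ) : Ki (RatFunc ℂ) := io (C (XX ^ κ s) * X 0 ^ J s)

/-- the additive condition -/
theorem HK_add (hinj : Function.Injective fun s => (J s, κ s)) (hneg : ∀ s, J s = 0 → κ s < 0)
    (l : σ → Ki (RatFunc ℂ)) (l0 : Ki (RatFunc ℂ)) (hl : ∀ s, tK tau (l s) = l s)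
    (h : tK tau l0 + ∑ s, l s * inc J κ s = l0) : l = 0 := by
  classical
  choose c hc using fun s => const_Ki (l s) (hl s)
  set cc : MvPolynomial ℕ (RatFunc ℂ) := ∑ s, C (cs (c s) * XX ^ κ s) * X 0 ^ J s with hcc
  have h1 : ∑ s, l s * inc J κ s = io cc := by
    rw [hcc, map_sum]
    refine Finset.sum_congr rfl fun s _ => ?_
    rw [hc s, inc, ← map_mul, C_mul, mul_assoc]
  have hpd : ∀ n, pderiv (n + 1) cc = 0 := by
    intro n
    rw [hcc, map_sum]
    refine Finset.sum_eq_zero fun s _ => ?_
    rw [pderiv_mul, pderiv_C, pderiv_pow, pderiv_X, Pi.single_apply, if_neg (by omega)]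
    ring
  obtain ⟨r0, hr0⟩ := descend tau l0 1 (-cc) (fun n => by rw [map_neg, hpd n, neg_zero]) (by
    rw [h1] at h
    rw [map_one, map_one, one_mul, map_neg]
    linear_combination h)
  have h2 : cc = C (r0 - tau r0) := by
    apply io_inj
    rw [h1, hr0, tK_io, tA_C] at h
    rw [C_sub, map_sub]
    linear_combination h
  have hco : ∀ j : ℕ, ∑ s ∈ Finset.univ.filter (fun s => J s = j), cs (c s) * XX ^ κ s =
      if j = 0 then r0 - tau r0 else 0 := by
    intro j
    have h3 := congrArg (coeff (Finsupp.single 0 j)) h2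
    rw [hcc, coeff_sum, coeff_C] at h3
    have h4 : ∀ s, coeff (Finsupp.single 0 j) (C (cs (c s) * XX ^ κ s) * X 0 ^ J s : MvPolynomial ℕ (RatFunc ℂ)) =
        if J s = j then cs (c s) * XX ^ κ s else 0 := by
      intro s
      rw [coeff_C_mul, coeff_X_pow]
      by_cases h5 : J s = j
      · rw [if_pos (by rw [h5]), if_pos h5, mul_one]
      · rw [if_neg, if_neg h5, mul_zero]
        intro h6
        exact h5 (by simpa using congrArg (fun f => f 0) h6)
    rw [Finset.sum_congr rfl fun s _ => h4 s, ← Finset.sum_filter] at h3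
    rw [h3]
    by_cases hj : j = 0
    · rw [hj]
      simp
    · rw [if_neg hj, if_neg]
      intro h6
      exact hj (by simpa using (congrArg (fun f => f 0) h6).symm)
  have hc0 : ∀ s, c s = 0 := by
    intro s0
    by_cases hj : J s0 = 0
    swap
    · have h3 := hco (J s0)
      rw [if_neg hj] at h3
      refine zpow_indep _ κ ?_ c h3 s0 (by simp)
      intro s hs s' hs' hss
      simp only [Finset.coe_filter, Finset.mem_univ, true_and, Set.mem_ofPred_eq] at hs hs'
      exact hinj (by simp [hs, hs', hss])
    · -- reduction to the rational case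
      obtain ⟨w, hw⟩ : ∃ w : ℕ, ∀ s, (κ s).natAbs ≤ w :=
        ⟨∑ s, (κ s).natAbs, fun s => Finset.single_le_sum (f := fun s => (κ s).natAbs) (fun _ _ => Nat.zero_le _) (Finset.mem_univ s)⟩
      set l' : Fin w → RatFunc ℂ := fun i =>
        -∑ s ∈ Finset.univ.filter (fun s => J s = 0 ∧ κ s = -((i : ℕ) + 1 : ℤ)), cs (c s) with hl'
      have h3 : l' = 0 := by
        apply H_add w l' r0
        · intro i
          rw [hl']
          simp only [map_neg, map_sum, tau_cs]
        · have h4 : ∑ i, l' i * (-(XX ^ ((i : ℕ) + 1))⁻¹) =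
              ∑ s ∈ Finset.univ.filter (fun s => J s = 0), cs (c s) * XX ^ κ s := by
            have h5 : ∀ i : Fin w, l' i * (-(XX ^ ((i : ℕ) + 1))⁻¹) =
                ∑ s ∈ Finset.univ.filter (fun s => J s = 0), if κ s = -((i : ℕ) + 1 : ℤ) then cs (c s) * XX ^ κ s else 0 := by
              intro i
              rw [hl']
              simp only
              rw [neg_mul_neg, Finset.sum_mul, ← Finset.sum_filter, Finset.filter_filter]
              refine Finset.sum_congr rfl fun s hs => ?_
              rw [Finset.mem_filter] at hs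
              rw [hs.2.2, zpow_neg]
              congr 2
            rw [Finset.sum_congr rfl fun i _ => h5 i, Finset.sum_comm]
            refine Finset.sum_congr rfl fun s hs => ?_
            rw [Finset.mem_filter] at hs
            have h6 := hneg s hs.2
            have h7 := hw s
            rw [Finset.sum_eq_single (⟨(κ s).natAbs - 1, by omega⟩ : Fin w)]
            · rw [if_pos]
              simp only
              omega
            · intro i _ hi
              rw [if_neg]
              intro h8
              apply hi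
              apply Fin.ext
              simp only
              omega
            · intro h8
              exact absurd (Finset.mem_univ _) h8
          rw [h4, hco 0, if_pos rfl]
          ring
      have h4 := hneg s0 hj
      have h5 := hw s0
      have h6 := congrFun h3 (⟨(κ s0).natAbs - 1, by omega⟩ : Fin w)
      rw [hl'] at h6
      simp only [Pi.zero_apply, neg_eq_zero] at h6
      rw [Finset.sum_eq_single s0] at h6
      · exact cs_inj h6
      · intro s hs hne
        rw [Finset.mem_filter] at hs
        exfalso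
        apply hne
        apply hinj
        have h7 : κ s = κ s0 := by omega
        simp [hs.2.1, hj, h7]
      · intro h7
        exfalso
        apply h7
        rw [Finset.mem_filter]
        refine ⟨Finset.mem_univ _, hj, ?_⟩
        omega
  funext s
  rw [hc s, hc0 s, cs_zero, map_zero, map_zero]
  rfl

end Pool.Agent.Y456.DF
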