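import Mathlib

set_option autoImplicit false

/-!
# The field of rational functions in infinitely many variables `X i ↦ X (i + 1)`
-/

open MvPolynomial

namespace Pool.Agent.Y456.DF

variable {k : Type*} [Field k] (t : k →+* k)

/-- the shift on polynomials -/
noncomputable def tA : MvPolynomial ℕ k →+* MvPolynomial ℕ k :=
  eval₂Hom (C.comp t) fun i => X (i + 1)

theorem tA_C (c : k) : tA t (C c) = C (t c) := by simp [tA]

theorem tA_X (i : ℕ) : tA t (X i) = X (i + 1) := by simp [tA]

theorem tA_eq (p : MvPolynomial ℕ k) : tA t p = rename Nat.succ (map t p) := by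
  have h : tA t = ((rename Nat.succ : MvPolynomial ℕ k →ₐ[k] MvPolynomial ℕ k) : MvPolynomial ℕ k →+* MvPolynomial ℕ k).comp (map t) := by
    apply ringHom_ext
    · intro c
      simp [tA]
    · intro i
      simp [tA]
  exact congrArg (fun g : MvPolynomial ℕ k →+* MvPolynomial ℕ k => g p) h

theorem tA_inj : Function.Injective (tA t) := by
  intro p q h
  rw [tA_eq, tA_eq] at h
  exact map_injective t t.injective (rename_injective _ Nat.succ_injective h)

/-- the field -/
abbrev Ki (k : Type*) [Field k] : Type _ := FractionRing (MvPolynomial ℕ k)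

/-- the shift on the field -/
noncomputable def tK : Ki k →+* Ki k := IsFractionRing.map (tA_inj t)

/-- polynomials in the field -/
noncomputable def io : MvPolynomial ℕ k →+* Ki k := algebraMap _ _

theorem io_inj : Function.Injective (io (k := k)) := IsFractionRing.injective _ _

theorem tK_io (p : MvPolynomial ℕ k) : tK t (io p) = io (tA t p) := by
  rw [tK, io, IsFractionRing.map, IsLocalization.map_eq]

theorem pderiv_tA_succ (n : ℕ) (p : MvPolynomial ℕ k) : pderiv (n + 1) (tA t p) = tA t (pderiv n p) := by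
  classical
  induction p using MvPolynomial.induction_on with
  | C a => rw [tA_C, pderiv_C, pderiv_C, map_zero]
  | add p q hp hq => rw [map_add, map_add, map_add, map_add, hp, hq]
  | mul_X p j hp =>
    rw [map_mul, pderiv_mul, pderiv_mul, map_add, map_mul, map_mul, hp, tA_X]
    congr 2
    rw [pderiv_X, pderiv_X, Pi.single_apply, Pi.single_apply]
    split_ifs with h1 h2 h2
    · rw [map_one]
    · omega
    · omega
    · rw [map_zero]

theorem pderiv_tA_zero (p : MvPolynomial ℕ k) : pderiv 0 (tA t p) = 0 := by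
  classical
  induction p using MvPolynomial.induction_on with
  | C a => rw [tA_C, pderiv_C]
  | add p q hp hq => rw [map_add, map_add, hp, hq, add_zero]
  | mul_X p j hp =>
    rw [map_mul, pderiv_mul, hp, tA_X, pderiv_X, Pi.single_apply, if_neg (by omega)]
    ring

theorem eq_C_of_pderiv [CharZero k] (p : MvPolynomial ℕ k) (h : ∀ n, pderiv n p = 0) : p = C (coeff 0 p) := by
  classical
  ext m
  rw [coeff_C]
  split_ifs with h0
  · rw [← h0]
  · obtain ⟨n, hn⟩ : ∃ n, m n ≠ 0 := by
      by_contra hcon
      push Not at hcon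
      exact h0 (Finsupp.ext fun n => (hcon n).symm)
    have h1 := congrArg (coeff (m - Finsupp.single n 1)) (h n)
    have h2 : m - Finsupp.single n 1 + Finsupp.single n 1 = m := by
      apply tsub_add_cancel_of_le
      rw [Finsupp.single_le_iff]
      omega
    rw [coeff_pderiv, h2, coeff_zero] at h1
    rcases mul_eq_zero.1 h1 with h3 | h3
    · exact h3
    · exfalso
      exact Nat.cast_add_one_ne_zero _ h3

theorem totalDegree_pderiv_lt (n : ℕ) (p : MvPolynomial ℕ k) (h : pderiv n p ≠ 0) :
    (pderiv n p).totalDegree < p.totalDegree := by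
  obtain ⟨α, hα, hd⟩ := Finset.exists_mem_eq_sup (pderiv n p).support (support_nonempty.2 h)
    (fun s : ℕ →₀ ℕ => s.sum fun _ e => e)
  have h1 : (pderiv n p).totalDegree = α.degree := hd
  rw [mem_support_iff, coeff_pderiv] at hα
  have h2 : coeff (α + Finsupp.single n 1) p ≠ 0 := by
    intro h0
    rw [h0, zero_mul] at hα
    exact hα rfl
  have h3 : (α + Finsupp.single n 1).degree ≤ p.totalDegree := le_totalDegree (mem_support_iff.2 h2)
  rw [map_add, Finsupp.degree_single] at h3
  omega

theorem pderiv_eventually (p : MvPolynomial ℕ k) : ∃ N, ∀ n, N ≤ n → pderiv n p = 0 := by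
  classical
  refine ⟨p.vars.sup id + 1, fun n hn => ?_⟩
  apply pderiv_eq_zero_of_notMem_vars
  intro h
  have : id n ≤ p.vars.sup id := Finset.le_sup h
  simp at this
  omega

/-- **an element with a simple difference lies in the ground field** -/
theorem descend [CharZero k] (u : Ki k) (a : k) (c : MvPolynomial ℕ k)
    (hc : ∀ n, pderiv (n + 1) c = 0) (h : tK t u = io (C a) * u + io c) : ∃ r : k, u = io (C r) := by
  classical
  have hP : ∃ d : ℕ, ∃ p q : MvPolynomial ℕ k, q ≠ 0 ∧ u * io q = io p ∧ q.totalDegree = d := by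
    obtain ⟨p, q, hq, hu⟩ := IsFractionRing.div_surjective (A := MvPolynomial ℕ k) u
    have hq0 : q ≠ 0 := mem_nonZeroDivisors_iff_ne_zero.1 hq
    refine ⟨_, p, q, hq0, ?_, rfl⟩
    have h1 : (io q : Ki k) ≠ 0 := (map_ne_zero_iff _ io_inj).2 hq0
    rw [← hu]
    exact div_mul_cancel₀ _ h1
  obtain ⟨p, q, hq, hu, hd⟩ := Nat.find_spec hP
  have hmin : ∀ p' q' : MvPolynomial ℕ k, q' ≠ 0 → u * io q' = io p' → q.totalDegree ≤ q'.totalDegree := by
    intro p' q' h1 h2
    rw [hd]
    exact Nat.find_min' hP ⟨p', q', h1, h2, rfl⟩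
  have hqi : (io q : Ki k) ≠ 0 := (map_ne_zero_iff _ io_inj).2 hq
  have hτ : tA t p * q = (C a * p + c * q) * tA t q := by
    apply io_inj
    simp only [map_mul, map_add]
    rw [← tK_io, ← tK_io, ← hu, map_mul, h]
    ring
  -- the Wronskians
  have hW : ∀ n, q ^ 2 * tA t (pderiv n p * q - p * pderiv n q) =
      tA t q ^ 2 * (C a * (pderiv (n + 1) p * q - p * pderiv (n + 1) q)) := by
    intro n
    have h1 := congrArg (pderiv (n + 1)) hτ
    rw [pderiv_mul, pderiv_mul, map_add, pderiv_mul, pderiv_mul, pderiv_C, hc, pderiv_tA_succ, pderiv_tA_succ] at h1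
    simp only [map_sub, map_mul]
    linear_combination (q * tA t q) * h1 - (q * tA t (pderiv n q) + tA t q * pderiv (n + 1) q) * hτ
  have hW0 : ∀ n, pderiv n p * q - p * pderiv n q = 0 := by
    obtain ⟨N1, hN1⟩ := pderiv_eventually p
    obtain ⟨N2, hN2⟩ := pderiv_eventually q
    have hstep : ∀ n, pderiv (n + 1) p * q - p * pderiv (n + 1) q = 0 → pderiv n p * q - p * pderiv n q = 0 := by
      intro n hn
      have h1 := hW n
      rw [hn, mul_zero, mul_zero] at h1
      rcases mul_eq_zero.1 h1 with h2 | h2
      · exact absurd h2 (pow_ne_zero _ hq)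
      · exact (map_eq_zero_iff _ (tA_inj t)).1 h2
    have hback : ∀ m n, pderiv (n + m) p * q - p * pderiv (n + m) q = 0 → pderiv n p * q - p * pderiv n q = 0 := by
      intro m
      induction m with
      | zero => exact fun n hn => hn
      | succ m ih =>
        intro n hn
        apply ih
        apply hstep
        exact hn
    intro n
    apply hback (N1 + N2) n
    rw [hN1 _ (by omega), hN2 _ (by omega)]
    ring
  have hq' : ∀ n, pderiv n q = 0 := by
    intro n
    by_contra hne
    have h1 : u * io (pderiv n q) = io (pderiv n p) := by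
      apply mul_right_cancel₀ hqi
      have h2 := congrArg io (hW0 n)
      rw [map_sub, map_mul, map_mul, map_zero, ← hu] at h2
      linear_combination -h2
    exact absurd (hmin _ _ hne h1) (not_le.2 (totalDegree_pderiv_lt n q hne))
  have hp' : ∀ n, pderiv n p = 0 := by
    intro n
    have h1 := hW0 n
    rw [hq' n, mul_zero, sub_zero] at h1
    exact (mul_eq_zero.1 h1).resolve_right hq
  have hqC := eq_C_of_pderiv q hq'
  have hpC := eq_C_of_pderiv p hp'
  have hq0 : coeff 0 q ≠ 0 := by
    intro h0
    rw [h0, map_zero] at hqC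
    exact hq hqC
  refine ⟨coeff 0 p / coeff 0 q, ?_⟩
  apply mul_right_cancel₀ hqi
  rw [hu, hqC, hpC, ← map_mul, ← C_mul]
  congr 2
  rw [coeff_C, coeff_C, if_pos rfl, if_pos rfl, div_mul_cancel₀ _ hq0]

end Pool.Agent.Y456.DF
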