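import Pool.Agent.Y456.DF.LogMain
import Pool.Agent.Y124.NFPoly

set_option autoImplicit false

/-!
# Solutions of `f (z + 1) - f (z) = z ^ κ (log z) ^ J` at points of number fields
-/

open MvPolynomial Filter Topology NumberField

namespace Pool.Agent.Y456.DF

open Pool.Agent.Y456.GJ (tau XX alg_inj)
open Pool.Agent.Y120 (HtLe)

variable {N : ℕ} (J : Fin N → ℕ) (κ : Fin N → ℤ) (f : Fin N → ℂ → ℂ)
  (hf : ∀ s, AnalyticOnNhd ℂ (f s) Complex.slitPlane)
  (heq : ∀ s, ∀ z ∈ Complex.slitPlane, f s (z + 1) = f s z + z ^ κ s * Complex.log z ^ J s)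

/-- the coefficients of the logarithmic part -/
noncomputable def cf (r : ℕ) : MvPolynomial (Fin r) (Polynomial ℂ) →+* Ki (RatFunc ℂ) :=
  (io (k := RatFunc ℂ)).comp (((rename (Fin.val : Fin r → ℕ) : MvPolynomial (Fin r) (RatFunc ℂ) →ₐ[RatFunc ℂ] _) :
    MvPolynomial (Fin r) (RatFunc ℂ) →+* MvPolynomial ℕ (RatFunc ℂ)).comp (map (algebraMap (Polynomial ℂ) (RatFunc ℂ))))

theorem cf_inj (r : ℕ) : Function.Injective (cf r) := by
  rw [cf]
  simp only [RingHom.coe_comp]
  refine io_inj.comp (Function.Injective.comp ?_ (map_injective _ alg_inj))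
  exact rename_injective _ Fin.val_injective

/-- regrouping of the variables -/
noncomputable def Ph (N r : ℕ) : MvPolynomial (Option (Option (Fin N ⊕ Fin r))) ℂ →+*
    Polynomial (MvPolynomial (Fin N) (Ki (RatFunc ℂ))) :=
  (Polynomial.mapRingHom (map (cf r))).comp
    ((Polynomial.mapRingHom ((sumAlgEquiv (Polynomial ℂ) (Fin N) (Fin r)).toRingEquiv.toRingHom)).comp
      (((optionEquivLeft (Polynomial ℂ) (Fin N ⊕ Fin r)).toRingEquiv.toRingHom).comp
        ((optionEquivRight ℂ (Option (Fin N ⊕ Fin r))).toRingEquiv.toRingHom)))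

theorem Ph_inj (N r : ℕ) : Function.Injective (Ph N r) := by
  rw [Ph]
  simp only [RingHom.coe_comp]
  refine Function.Injective.comp (Polynomial.map_injective _ (map_injective _ (cf_inj r))) ?_
  refine Function.Injective.comp (Polynomial.map_injective _ ?_) ?_
  · exact (sumAlgEquiv (Polynomial ℂ) (Fin N) (Fin r)).injective
  · refine Function.Injective.comp ?_ ?_
    · exact (optionEquivLeft (Polynomial ℂ) (Fin N ⊕ Fin r)).injective
    · exact (optionEquivRight ℂ (Option (Fin N ⊕ Fin r))).injective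

theorem Ph_C (r : ℕ) (c : ℂ) : Ph N r (C c) = Polynomial.C (C (io (C (algebraMap (Polynomial ℂ) (RatFunc ℂ) (Polynomial.C c))))) := by
  simp [Ph, cf]

theorem Ph_z (r : ℕ) : Ph N r (X none) = Polynomial.C (C (io (C XX))) := by
  simp [Ph, cf, XX]

theorem Ph_G (r : ℕ) : Ph N r (X (some none)) = Polynomial.X := by
  simp [Ph]

theorem Ph_f (r : ℕ) (s : Fin N) : Ph N r (X (some (some (Sum.inl s)))) = Polynomial.C (X s) := by
  simp [Ph]

theorem Ph_l (r : ℕ) (i : Fin r) : Ph N r (X (some (some (Sum.inr i)))) = Polynomial.C (C (io (X (i : ℕ)))) := by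
  simp [Ph, cf]

include hf heq in
/-- **algebraic independence** -/
theorem indep_all (hinj : Function.Injective fun s => (J s, κ s)) (hneg : ∀ s, J s = 0 → κ s < 0) (r : ℕ)
    (P : MvPolynomial (Option (Option (Fin N ⊕ Fin r))) ℂ)
    (h : ∀ z ∈ Complex.slitPlane, eval (val r f z) P = 0) : P = 0 := by
  have key : ∀ Q : MvPolynomial (Option (Option (Fin N ⊕ Fin r))) ℂ,
      Polynomial.eval₂ (Th f hf) Gf (Ph N r Q) = em D0 _ (val_an f hf r Q) := by
    intro Q
    induction Q using MvPolynomial.induction_on with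
    | C a =>
      rw [Ph_C, Polynomial.eval₂_C, Th, eval₂Hom_C, pK_io, TA, eval₂Hom_C, ph_alg, pl_apply]
      apply em_congr
      intro z _
      simp
    | add p q hp hq =>
      rw [map_add, Polynomial.eval₂_add, hp, hq, ← em_add]
      apply em_congr
      intro z _
      simp
    | mul_X p i hp =>
      have h1 : ∀ hi : AnalyticOnNhd ℂ (fun z => val r f z i) D0.U,
          Polynomial.eval₂ (Th f hf) Gf (Ph N r (X i)) = em D0 _ hi → 
          Polynomial.eval₂ (Th f hf) Gf (Ph N r (p * X i)) = em D0 _ (val_an f hf r (p * X i)) := by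
        intro hi h2
        rw [map_mul, Polynomial.eval₂_mul, hp, h2, ← em_mul]
        apply em_congr
        intro z _
        simp
      rcases i with _ | _ | s | i
      · apply h1 analyticOnNhd_id
        rw [Ph_z, Polynomial.eval₂_C, Th, eval₂Hom_C, pK_io, TA, eval₂Hom_C, ph_XX]
        rfl
      · apply h1 (fam_an f hf r none)
        rw [Ph_G, Polynomial.eval₂_X]
        rfl
      · apply h1 (fam_an f hf r (some (Sum.inl s)))
        rw [Ph_f, Polynomial.eval₂_C, Th, eval₂Hom_X']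
        rfl
      · apply h1 (fam_an f hf r (some (Sum.inr i)))
        rw [Ph_l, Polynomial.eval₂_C, Th, eval₂Hom_C, pK_io, TA, eval₂Hom_X']
        rfl
  have h1 : Polynomial.eval₂ (Th f hf) Gf (Ph N r P) = 0 := by
    rw [key, em_eq_zero_iff]
    exact h
  exact (map_eq_zero_iff _ (Ph_inj N r)).1 (poly_indep J κ f hf heq hinj hneg _ h1)

include hf heq in
/-- independence near every point -/
theorem locInd (hinj : Function.Injective fun s => (J s, κ s)) (hneg : ∀ s, J s = 0 → κ s < 0) (r : ℕ)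
    {t0 : ℂ} (ht0 : t0 ∈ Complex.slitPlane) :
    Pool.Agent.Y124.LocInd (𝕜 := ℂ) (fun i : Option (Fin N ⊕ Fin r) => fam r f i) t0 := by
  intro P hP
  apply indep_all J κ f hf heq hinj hneg r P
  intro z hz
  exact (val_an f hf r P).eqOn_zero_of_preconnected_of_eventuallyEq_zero pc_slit ht0 hP hz

include hf heq in
theorem main {h : Type} [Fintype h] (hinj : Function.Injective fun s => (J s, κ s)) (hneg : ∀ s, J s = 0 → κ s < 0)
    (m n d r : ℕ) (L : Set ℂ) (hL : IsCompact L) (hL' : L ⊆ Complex.slitPlane) (A ε : ℝ) (hε : 0 < ε) :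
    ∃ B C T₀ : ℝ, 0 ≤ C ∧ 2 ≤ T₀ ∧ ∀ (K : Type) [Field K] [NumberField K], Module.finrank ℚ K ≤ m → ∀ (io : K →+* ℂ)
      (ξ : h → ℂ) (T : ℝ), T₀ ≤ T →
      (Pool.Agent.Y124.ExcNF n d K io ξ (fun t (i : Option (Fin N ⊕ Fin r)) => fam r f i t) L A B T).Finite ∧
      ((Pool.Agent.Y124.ExcNF n d K io ξ (fun t (i : Option (Fin N ⊕ Fin r)) => fam r f i t) L A B T).ncard : ℝ) ≤
        C * T ^ ε * (({x : K | HtLe K T x ∧ io x ∈ L}.ncard : ℝ)) ^ (n - 1) :=
  Pool.Agent.Y124.excNF m n d _ L (fun g => Pool.Agent.Y124.oneV_of g (fun i : Option (Fin N ⊕ Fin r) => fam r f i) L hL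
    (fun i t ht => fam_an f hf r i t (hL' ht)) fun t ht => locInd J κ f hf heq hinj hneg r (hL' ht)) A ε hε

end Pool.Agent.Y456.DF
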