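import Mathlib

set_option autoImplicit false

/-!
# The functions `log (z + i)` are algebraically independent over the rational functions
-/

open Filter Topology Complex

namespace Pool.Agent.Y456.DF

theorem pc_slit : IsPreconnected slitPlane :=
  (starConvex_one_slitPlane.isPathConnected one_mem_slitPlane).isConnected.isPreconnected

theorem slit_add_one {z : ℂ} (hz : z ∈ slitPlane) : z + 1 ∈ slitPlane := by
  rcases mem_slitPlane_iff.1 hz with h | h
  · left
    simp
    linarith
  · right
    simpa using h

theorem slit_add_nat {z : ℂ} (hz : z ∈ slitPlane) (n : ℕ) : z + n ∈ slitPlane := by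
  induction n with
  | zero => simpa using hz
  | succ n ih =>
    have := slit_add_one ih
    push_cast
    rwa [← add_assoc]

theorem slit_add_one_add {z : ℂ} (hz : z + 1 ∈ slitPlane) (n : ℕ) : z + 1 + n ∈ slitPlane := slit_add_nat hz n

theorem log_neg_of_pos {z : ℂ} (hz : 0 < z.im) : log (-z) + Real.pi * I = log z := by
  apply Complex.ext
  · simp [log_re]
  · simp [log_im, arg_neg_eq_arg_sub_pi_of_im_pos hz]

theorem log_neg_of_neg {z : ℂ} (hz : z.im < 0) : log (-z) + Real.pi * I = log z + 2 * Real.pi * I := by
  apply Complex.ext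
  · simp [log_re]
  · simp [log_im, arg_neg_eq_arg_add_pi_of_im_neg hz]
    ring

/-- crossing the cut between `-1` and `0` -/
theorem cross (N : ℕ) (a : ℕ → ℂ → ℂ) (ha : ∀ k, AnalyticOnNhd ℂ (a k) {z | z + 1 ∈ slitPlane}) (c : ℂ)
    (h : ∀ z ∈ slitPlane, ∑ k ∈ Finset.range N, a k z * (log z + c) ^ k = 0) :
    ∀ z ∈ slitPlane, ∑ k ∈ Finset.range N, a k z * (log z + (c + 2 * Real.pi * I)) ^ k = 0 := by
  set B : Set ℂ := Metric.ball (-(1 / 2) : ℂ) (1 / 4) with hB
  have hBre : ∀ z ∈ B, z.re < 0 ∧ -1 < z.re := by
    intro z hz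
    rw [hB, Metric.mem_ball, dist_eq_norm] at hz
    have h1 := (abs_re_le_norm (z - -(1 / 2))).trans_lt hz
    rw [abs_lt] at h1
    simp at h1
    constructor <;> linarith [h1.1, h1.2]
  have hB1 : ∀ z ∈ B, z + 1 ∈ slitPlane := by
    intro z hz
    left
    have := (hBre z hz).2
    simp
    linarith
  have hBneg : ∀ z ∈ B, -z ∈ slitPlane := by
    intro z hz
    left
    have := (hBre z hz).1
    simp
    linarith
  set G : ℂ → ℂ := fun z => ∑ k ∈ Finset.range N, a k z * (log (-z) + Real.pi * I + c) ^ k with hG
  have hGan : AnalyticOnNhd ℂ G B := by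
    intro z hz
    rw [hG]
    refine Finset.analyticAt_fun_sum _ fun k _ => ?_
    refine (ha k z (hB1 z hz)).mul ?_
    refine AnalyticAt.pow ?_ k
    refine (AnalyticAt.add ?_ analyticAt_const).add analyticAt_const
    exact analyticAt_id.neg.clog (hBneg z hz)
  have hG0 : ∀ z ∈ B, G z = 0 := by
    set z1 : ℂ := -(1 / 2) + (1 / 8) * I with hz1
    have hz1B : z1 ∈ B := by
      rw [hB, Metric.mem_ball, dist_eq_norm, hz1]
      have : (-(1 / 2) + 1 / 8 * I - -(1 / 2) : ℂ) = 1 / 8 * I := by ring
      rw [this]
      simp
      norm_num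
    have hz1im : 0 < z1.im := by
      rw [hz1]
      simp
    have h2 : ∀ᶠ z in 𝓝 z1, G z = 0 := by
      have h3 : ∀ᶠ z : ℂ in 𝓝 z1, 0 < z.im := continuous_im.continuousAt.eventually_const_lt hz1im
      filter_upwards [h3] with z hz
      rw [hG]
      simp only [log_neg_of_pos hz]
      exact h z (Or.inr hz.ne')
    intro z hz
    exact hGan.eqOn_zero_of_preconnected_of_eventuallyEq_zero (convex_ball _ _).isPreconnected hz1B h2 hz
  set F : ℂ → ℂ := fun z => ∑ k ∈ Finset.range N, a k z * (log z + (c + 2 * Real.pi * I)) ^ k with hF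
  have hFan : AnalyticOnNhd ℂ F slitPlane := by
    intro z hz
    rw [hF]
    refine Finset.analyticAt_fun_sum _ fun k _ => ?_
    refine (ha k z (slit_add_one hz)).mul ?_
    refine AnalyticAt.pow ?_ k
    exact (analyticAt_id.clog hz).add analyticAt_const
  set z2 : ℂ := -(1 / 2) - (1 / 8) * I with hz2
  have hz2B : z2 ∈ B := by
    rw [hB, Metric.mem_ball, dist_eq_norm, hz2]
    have : (-(1 / 2) - 1 / 8 * I - -(1 / 2) : ℂ) = -(1 / 8 * I) := by ring
    rw [this]
    simp
    norm_num
  have hz2im : z2.im < 0 := by
    rw [hz2]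
    simp
  have h2 : ∀ᶠ z in 𝓝 z2, F z = 0 := by
    have h3 : ∀ᶠ z : ℂ in 𝓝 z2, z.im < 0 := continuous_im.continuousAt.eventually_lt_const hz2im
    filter_upwards [h3, Metric.isOpen_ball.mem_nhds hz2B] with z hz hzB
    have h4 := hG0 z hzB
    rw [hG] at h4
    simp only [log_neg_of_neg hz] at h4
    rw [hF]
    simp only
    rw [← h4]
    refine Finset.sum_congr rfl fun k _ => ?_
    ring
  intro z hz
  exact hFan.eqOn_zero_of_preconnected_of_eventuallyEq_zero pc_slit (Or.inr hz2im.ne) h2 hz

/-- evaluation -/
noncomputable def evl (n : ℕ) (z : ℂ) : MvPolynomial (Fin n) (Polynomial ℂ) →+* ℂ :=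
  MvPolynomial.eval₂Hom (Polynomial.evalRingHom z) fun i => log (z + (i : ℕ))

theorem an_eval₂ {σ : Type*} (P : MvPolynomial σ (Polynomial ℂ)) (e : ℂ → Polynomial ℂ →+* ℂ) (f : σ → ℂ → ℂ) (S : Set ℂ)
    (he : ∀ p, AnalyticOnNhd ℂ (fun z => e z p) S) (hf : ∀ i, AnalyticOnNhd ℂ (f i) S) :
    AnalyticOnNhd ℂ (fun z => MvPolynomial.eval₂Hom (e z) (fun i => f i z) P) S := by
  induction P using MvPolynomial.induction_on with
  | C a =>
    simp only [MvPolynomial.eval₂Hom_C]
    exact he a
  | add p q hp hq =>
    simp only [map_add]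
    exact hp.add hq
  | mul_X p i hp =>
    simp only [map_mul, MvPolynomial.eval₂Hom_X']
    exact hp.mul (hf i)

theorem log_indep (n : ℕ) : ∀ P : MvPolynomial (Fin n) (Polynomial ℂ), (∀ z ∈ slitPlane, evl n z P = 0) → P = 0 := by
  induction n with
  | zero =>
    intro P hP
    obtain ⟨p, rfl⟩ := MvPolynomial.C_surjective (Fin 0) P
    have h1 : (slitPlane : Set ℂ).Infinite :=
      infinite_of_mem_nhds (1 : ℂ) (isOpen_slitPlane.mem_nhds one_mem_slitPlane)
    have h2 : p = 0 := by
      refine Polynomial.eq_zero_of_infinite_isRoot p (h1.mono fun z hz => ?_)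
      have := hP z hz
      rw [evl, MvPolynomial.eval₂Hom_C] at this
      exact this
    rw [h2, map_zero]
  | succ n ih =>
    intro P hP
    set Q := MvPolynomial.finSuccEquiv (Polynomial ℂ) n P with hQ
    -- evaluation of the coefficients
    let ec : ℂ → MvPolynomial (Fin n) (Polynomial ℂ) →+* ℂ := fun z =>
      MvPolynomial.eval₂Hom (Polynomial.evalRingHom z) fun i => log (z + 1 + (i : ℕ))
    have key : ∀ (z : ℂ) (R : MvPolynomial (Fin (n + 1)) (Polynomial ℂ)),
        evl (n + 1) z R = ((MvPolynomial.finSuccEquiv (Polynomial ℂ) n R).map (ec z)).eval (log z) := by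
      intro z R
      have h : evl (n + 1) z = ((Polynomial.evalRingHom (log z)).comp (Polynomial.mapRingHom (ec z))).comp
          ((MvPolynomial.finSuccEquiv (Polynomial ℂ) n).toRingEquiv.toRingHom) := by
        apply MvPolynomial.ringHom_ext
        · intro p
          simp [evl, ec, MvPolynomial.finSuccEquiv_apply]
        · intro i
          refine Fin.cases ?_ (fun j => ?_) i
          · simp [evl, MvPolynomial.finSuccEquiv_X_zero]
          · simp [evl, ec, MvPolynomial.finSuccEquiv_X_succ]
            congr 1
            ring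
      exact congrArg (fun g : MvPolynomial (Fin (n + 1)) (Polynomial ℂ) →+* ℂ => g R) h
    have han : ∀ R : MvPolynomial (Fin n) (Polynomial ℂ), AnalyticOnNhd ℂ (fun z => ec z R) {z | z + 1 ∈ slitPlane} := by
      intro R
      refine an_eval₂ R (fun z => Polynomial.evalRingHom z) (fun i z => log (z + 1 + ((i : ℕ) : ℂ))) _ ?_ ?_
      · intro p z _
        exact p.differentiable.analyticAt z
      · intro i z hz
        exact ((analyticAt_id.add analyticAt_const).add analyticAt_const).clog (slit_add_one_add hz i)
    have hsum : ∀ (z x : ℂ), (Q.map (ec z)).eval x = ∑ k ∈ Finset.range (Q.natDegree + 1), ec z (Q.coeff k) * x ^ k := by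
      intro z x
      rw [Polynomial.eval_map, Polynomial.eval₂_eq_sum_range]
    have hall : ∀ m : ℕ, ∀ z ∈ slitPlane, ∑ k ∈ Finset.range (Q.natDegree + 1),
        ec z (Q.coeff k) * (log z + m * (2 * Real.pi * I)) ^ k = 0 := by
      intro m
      induction m with
      | zero =>
        intro z hz
        have := hP z hz
        rw [key, ← hQ, hsum] at this
        simpa using this
      | succ m ihm =>
        intro z hz
        have := cross (Q.natDegree + 1) (fun k z => ec z (Q.coeff k)) (fun k => han _) (m * (2 * Real.pi * I)) ihm z hz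
        rw [← this]
        refine Finset.sum_congr rfl fun k _ => ?_
        push_cast
        ring
    have hzero : ∀ z ∈ slitPlane, Q.map (ec z) = 0 := by
      intro z hz
      refine Polynomial.eq_zero_of_infinite_isRoot _ ?_
      refine Set.Infinite.mono (s := Set.range fun m : ℕ => log z + m * (2 * Real.pi * I)) ?_ ?_
      · rintro _ ⟨m, rfl⟩
        show Polynomial.eval _ _ = 0
        rw [hsum]
        exact hall m z hz
      · apply Set.infinite_range_of_injective
        intro m m' hmm
        have h1 : (2 * Real.pi * I : ℂ) ≠ 0 := two_pi_I_ne_zero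
        have h2 := mul_right_cancel₀ h1 (add_left_cancel hmm)
        exact_mod_cast h2
    have hcoef : ∀ k, Q.coeff k = 0 := by
      intro k
      set R := Q.coeff k with hR
      -- shift
      let s : Polynomial ℂ →+* Polynomial ℂ := Polynomial.compRingHom (Polynomial.X - 1)
      have hs : ∀ (p : Polynomial ℂ) (z : ℂ), (s p).eval z = p.eval (z - 1) := by
        intro p z
        simp [s, Polynomial.eval_comp]
      have hsinj : Function.Injective s := by
        rw [injective_iff_map_eq_zero]
        intro p hp
        refine Polynomial.funext fun z => ?_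
        have := hs p (z + 1)
        rw [hp, add_sub_cancel_right] at this
        simpa using this.symm
      have hR' : MvPolynomial.map s R = 0 := by
        apply ih
        have h1 : ∀ z : ℂ, evl n z (MvPolynomial.map s R) = ec (z - 1) R := by
          intro z
          simp only [evl, ec, MvPolynomial.coe_eval₂Hom]
          rw [MvPolynomial.eval₂_map]
          have h2 : (Polynomial.evalRingHom z).comp s = Polynomial.evalRingHom (z - 1) := by
            apply RingHom.ext
            intro p
            exact hs p z
          rw [h2, sub_add_cancel]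
        have h3 : AnalyticOnNhd ℂ (fun z => evl n z (MvPolynomial.map s R)) slitPlane := by
          have := an_eval₂ (MvPolynomial.map s R) (fun z => Polynomial.evalRingHom z)
            (fun (i : Fin n) z => log (z + ((i : ℕ) : ℂ))) slitPlane (fun p z _ => p.differentiable.analyticAt z)
            (fun i z hz => (analyticAt_id.add analyticAt_const).clog (slit_add_nat hz i))
          exact this
        have h4 : ∀ᶠ z in 𝓝 (2 : ℂ), evl n z (MvPolynomial.map s R) = 0 := by
          have h5 : ∀ᶠ z : ℂ in 𝓝 2, 1 < z.re :=
            continuous_re.continuousAt.eventually_const_lt (by simp)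
          filter_upwards [h5] with z hz
          rw [h1]
          have h6 : z - 1 ∈ slitPlane := by
            left
            simp
            linarith
          have h7 := congrArg (fun p => Polynomial.coeff p k) (hzero (z - 1) h6)
          simpa [Polynomial.coeff_map] using h7
        intro z hz
        have h2 : (2 : ℂ) ∈ slitPlane := by
          left
          simp
        exact h3.eqOn_zero_of_preconnected_of_eventuallyEq_zero pc_slit h2 h4 hz
      exact (map_eq_zero_iff _ (MvPolynomial.map_injective s hsinj)).1 hR'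
    have hQ0 : Q = 0 := by
      ext1 k
      rw [hcoef k, Polynomial.coeff_zero]
    exact (map_eq_zero_iff (MvPolynomial.finSuccEquiv (Polynomial ℂ) n) (AlgEquiv.injective _)).1 hQ0

end Pool.Agent.Y456.DF
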