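import Pool.Agent.Y456.DF.Mer
import Pool.Agent.Y456.DF.LogInd
import Pool.Agent.Y456.DF.HInf
import Pool.Agent.Y456.GJ.Mult
import Pool.Agent.Y456.GJ.Fun

set_option autoImplicit false

/-!
# Independence of solutions of `f (z + 1) - f (z) = z ^ κ (log z) ^ J`
-/

open MvPolynomial Filter Topology

namespace Pool.Agent.Y456.DF

open Pool.Agent.Y456.GJ (tau tau_alg XX XX_ne alg_inj sh sh_C sh_X ideal_bot mult_indep)

/-- the slit plane -/
def D0 : Dom := ⟨Complex.slitPlane, Complex.isOpen_slitPlane, pc_slit, ⟨1, Complex.one_mem_slitPlane⟩, fun _ => slit_add_one⟩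

theorem D0_U : D0.U = Complex.slitPlane := rfl

section general

variable (D : Dom)

/-- rational functions -/
noncomputable def ph (D : Dom) : RatFunc ℂ →+* E D := IsFractionRing.lift (pl_inj D)

theorem ph_alg (p : Polynomial ℂ) : ph D (algebraMap (Polynomial ℂ) (RatFunc ℂ) p) = pl D p :=
  IsFractionRing.lift_algebraMap _ _

theorem T_ph (u : RatFunc ℂ) : T D (ph D u) = ph D (tau u) := by
  have h : (T D).comp (ph D) = (ph D).comp tau := by
    apply IsLocalization.ringHom_ext (nonZeroDivisors (Polynomial ℂ))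
    apply RingHom.ext
    intro p
    simp only [RingHom.comp_apply]
    rw [ph_alg, tau_alg, ph_alg, pl_apply, pl_apply, T_em]
    apply em_congr
    intro z _
    rw [Pool.Agent.Y456.GJ.eval_sp]
  exact congrArg (fun g : RatFunc ℂ →+* E D => g u) h

theorem ph_XX : ph D XX = em D (fun z => z) analyticOnNhd_id := by
  rw [XX, ph_alg, pl_apply]
  apply em_congr
  intro z _
  rw [Polynomial.eval_X]

theorem clear {σ : Type*} (P : MvPolynomial σ (RatFunc ℂ)) : ∃ d : Polynomial ℂ, d ≠ 0 ∧
    ∃ P' : MvPolynomial σ (Polynomial ℂ), C (algebraMap _ _ d) * P = map (algebraMap (Polynomial ℂ) (RatFunc ℂ)) P' := by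
  induction P using MvPolynomial.induction_on with
  | C a =>
    obtain ⟨p, q, _, hq, h⟩ := Pool.Agent.Y456.GJ.exists_rep a
    refine ⟨q, hq, C p, ?_⟩
    rw [map_C, ← h, ← C_mul, mul_comm]
  | add P Q hP hQ =>
    obtain ⟨d, hd, P', hP'⟩ := hP
    obtain ⟨e, he, Q', hQ'⟩ := hQ
    refine ⟨d * e, mul_ne_zero hd he, C e * P' + C d * Q', ?_⟩
    simp only [map_add, map_mul, map_C]
    rw [← hP', ← hQ']
    ring
  | mul_X P i hP =>
    obtain ⟨d, hd, P', hP'⟩ := hP
    refine ⟨d, hd, P' * X i, ?_⟩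
    rw [map_mul, map_X, ← hP']
    ring

/-- evaluation as a class of an analytic function -/
theorem em_eval {σ : Type*} (P : MvPolynomial σ (Polynomial ℂ)) (f : σ → ℂ → ℂ) (hf : ∀ i, AnalyticOnNhd ℂ (f i) D.U)
    (h : AnalyticOnNhd ℂ (fun z => eval₂Hom (Polynomial.evalRingHom z) (fun i => f i z) P) D.U) :
    em D _ h = eval₂Hom (pl D) (fun i => em D (f i) (hf i)) P := by
  have han : ∀ Q : MvPolynomial σ (Polynomial ℂ),
      AnalyticOnNhd ℂ (fun z => eval₂Hom (Polynomial.evalRingHom z) (fun i => f i z) Q) D.U := fun Q =>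
    an_eval₂ Q (fun z => Polynomial.evalRingHom z) f D.U (fun p z _ => p.differentiable.analyticAt z) hf
  induction P using MvPolynomial.induction_on with
  | C a =>
    rw [eval₂Hom_C, pl_apply]
    apply em_congr
    intro z _
    rw [eval₂Hom_C]
    rfl
  | add P Q hP hQ =>
    rw [map_add, ← hP (han P), ← hQ (han Q), ← em_add]
    apply em_congr
    intro z _
    rw [map_add]
    rfl
  | mul_X P i hP =>
    rw [map_mul, eval₂Hom_X', ← hP (han P), ← em_mul]
    apply em_congr
    intro z _
    rw [map_mul, eval₂Hom_X']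
    rfl

end general

/-- the logarithms -/
noncomputable def lg (i : ℕ) : E D0 := em D0 (fun z => Complex.log (z + i)) fun z hz =>
  (analyticAt_id.add analyticAt_const).clog (slit_add_nat hz i)

/-- evaluation at the logarithms -/
noncomputable def TA : MvPolynomial ℕ (RatFunc ℂ) →+* E D0 := eval₂Hom (ph D0) lg

theorem TA_inj : Function.Injective TA := by
  rw [injective_iff_map_eq_zero]
  intro P hP
  obtain ⟨d, hd, P', hP'⟩ := clear P
  have h1 : TA (map (algebraMap (Polynomial ℂ) (RatFunc ℂ)) P') = 0 := by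
    rw [← hP', map_mul, hP, mul_zero]
  have hP'0 : P' = 0 := by
    have hv : ∃ n : ℕ, (P'.vars : Set ℕ) ⊆ Set.range (Fin.val : Fin n → ℕ) := by
      refine ⟨P'.vars.sup id + 1, fun i hi => ?_⟩
      have h2 : id i ≤ P'.vars.sup id := Finset.le_sup (Finset.mem_coe.1 hi)
      exact ⟨⟨i, by simp at h2 ⊢; omega⟩, rfl⟩
    obtain ⟨n, hn⟩ := hv
    obtain ⟨P2, hP2⟩ := exists_rename_eq_of_vars_subset_range P' (Fin.val : Fin n → ℕ) Fin.val_injective hn
    have hP20 : P2 = 0 := by
      apply log_indep n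
      have h3 : AnalyticOnNhd ℂ (fun z => eval₂Hom (Polynomial.evalRingHom z)
          (fun i : Fin n => Complex.log (z + ((i : ℕ) : ℂ))) P2) D0.U :=
        an_eval₂ P2 (fun z => Polynomial.evalRingHom z) (fun (i : Fin n) z => Complex.log (z + ((i : ℕ) : ℂ))) D0.U
          (fun p z _ => p.differentiable.analyticAt z)
          (fun i z hz => (analyticAt_id.add analyticAt_const).clog (slit_add_nat hz i))
      have h4 : em D0 _ h3 = 0 := by
        rw [em_eval D0 P2 (fun (i : Fin n) z => Complex.log (z + ((i : ℕ) : ℂ)))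
          (fun i z hz => (analyticAt_id.add analyticAt_const).clog (slit_add_nat hz i)) h3]
        rw [← hP2] at h1
        have h5 : (TA.comp (map (algebraMap (Polynomial ℂ) (RatFunc ℂ)))).comp
            ((rename (Fin.val : Fin n → ℕ) : MvPolynomial (Fin n) (Polynomial ℂ) →ₐ[Polynomial ℂ] _) :
              MvPolynomial (Fin n) (Polynomial ℂ) →+* MvPolynomial ℕ (Polynomial ℂ)) =
            eval₂Hom (pl D0) (fun i : Fin n => em D0 (fun z => Complex.log (z + ((i : ℕ) : ℂ)))
              (fun z hz => (analyticAt_id.add analyticAt_const).clog (slit_add_nat hz i))) := by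
          apply ringHom_ext
          · intro p
            simp [TA, ph_alg]
          · intro i
            simp [TA, lg]
        rw [← h5]
        exact h1
      intro z hz
      exact (em_eq_zero_iff D0 h3).1 h4 z hz
    rw [← hP2, hP20, map_zero]
  rw [hP'0, map_zero] at hP'
  rcases mul_eq_zero.1 hP' with h2 | h2
  · exfalso
    rw [map_eq_zero_iff _ (C_injective _ _), map_eq_zero_iff _ alg_inj] at h2
    exact hd h2
  · exact h2

/-- the large field as a field of functions -/
noncomputable def pK : Ki (RatFunc ℂ) →+* E D0 := IsFractionRing.lift TA_inj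

theorem pK_io (p : MvPolynomial ℕ (RatFunc ℂ)) : pK (io p) = TA p := IsFractionRing.lift_algebraMap _ _

theorem T_TA (p : MvPolynomial ℕ (RatFunc ℂ)) : T D0 (TA p) = TA (tA tau p) := by
  have h : (T D0).comp TA = TA.comp (tA tau) := by
    apply ringHom_ext
    · intro c
      simp only [RingHom.comp_apply]
      rw [tA_C, TA, eval₂Hom_C, eval₂Hom_C, T_ph]
    · intro i
      simp only [RingHom.comp_apply]
      rw [tA_X, TA, eval₂Hom_X', eval₂Hom_X', lg, T_em, lg]
      apply em_congr
      intro z _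
      congr 1
      push_cast
      ring
  exact congrArg (fun g : MvPolynomial ℕ (RatFunc ℂ) →+* E D0 => g p) h

theorem T_pK (u : Ki (RatFunc ℂ)) : T D0 (pK u) = pK (tK tau u) := by
  have h : (T D0).comp pK = pK.comp (tK tau) := by
    apply IsLocalization.ringHom_ext (nonZeroDivisors (MvPolynomial ℕ (RatFunc ℂ)))
    apply RingHom.ext
    intro p
    simp only [RingHom.comp_apply]
    have h1 : algebraMap (MvPolynomial ℕ (RatFunc ℂ)) (Ki (RatFunc ℂ)) p = io p := rfl
    rw [h1, pK_io, T_TA, tK_io, pK_io]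
  exact congrArg (fun g : Ki (RatFunc ℂ) →+* E D0 => g u) h

variable {N : ℕ} (J : Fin N → ℕ) (κ : Fin N → ℤ) (f : Fin N → ℂ → ℂ)
  (hf : ∀ s, AnalyticOnNhd ℂ (f s) Complex.slitPlane)
  (heq : ∀ s, ∀ z ∈ Complex.slitPlane, f s (z + 1) = f s z + z ^ κ s * Complex.log z ^ J s)

/-- evaluation at the solutions -/
noncomputable def Th : MvPolynomial (Fin N) (Ki (RatFunc ℂ)) →+* E D0 :=
  eval₂Hom pK fun s => em D0 (f s) (hf s)

theorem pK_inc (s : Fin N) (h : AnalyticOnNhd ℂ (fun z : ℂ => z ^ κ s * Complex.log z ^ J s) D0.U) :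
    pK (inc J κ s) = em D0 _ h := by
  have hz : AnalyticOnNhd ℂ (fun z : ℂ => z ^ κ s) D0.U := by
    intro z hz
    exact analyticAt_id.zpow (Complex.slitPlane_ne_zero hz)
  have hl : AnalyticOnNhd ℂ (fun z : ℂ => Complex.log z ^ J s) D0.U := by
    intro z hz
    exact (analyticAt_id.clog hz).pow _
  rw [inc, pK_io, map_mul, map_pow]
  have h1 : TA (C (XX ^ κ s)) = em D0 _ hz := by
    rw [TA, eval₂Hom_C, map_zpow₀, ph_XX]
    have h2 : ∀ n : ℕ, ∀ hn : AnalyticOnNhd ℂ (fun z : ℂ => z ^ n) D0.U,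
        em D0 (fun z : ℂ => z) analyticOnNhd_id ^ n = em D0 _ hn := by
      intro n hn
      rw [em, em, ← map_pow]
      rfl
    have h3 : ∀ (x : ℤ) (hx : AnalyticOnNhd ℂ (fun z : ℂ => z ^ x) D0.U),
        em D0 (fun z : ℂ => z) analyticOnNhd_id ^ x = em D0 _ hx := by
     intro x hx
     rcases x with n | n
     · have h4 : AnalyticOnNhd ℂ (fun z : ℂ => z ^ n) D0.U := fun z _ => analyticAt_id.pow n
       have e1 : em D0 (fun z : ℂ => z) analyticOnNhd_id ^ (Int.ofNat n) =
           em D0 (fun z : ℂ => z) analyticOnNhd_id ^ n := zpow_natCast _ _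
       rw [e1, h2 n h4]
       apply em_congr
       intro z _
       rw [Int.ofNat_eq_natCast, zpow_natCast]
     · have h4 : AnalyticOnNhd ℂ (fun z : ℂ => z ^ (n + 1)) D0.U := fun z _ => analyticAt_id.pow (n + 1)
       have e1 : em D0 (fun z : ℂ => z) analyticOnNhd_id ^ (Int.negSucc n) =
           (em D0 (fun z : ℂ => z) analyticOnNhd_id ^ (n + 1))⁻¹ := zpow_negSucc _ _
       rw [e1, h2 (n + 1) h4]
       apply inv_eq_of_mul_eq_one_right
       rw [← em_mul]
       have h5 : (1 : E D0) = em D0 (fun _ => 1) analyticOnNhd_const := by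
         rw [em, ← map_one (algebraMap (Hol D0) (E D0))]
         rfl
       rw [h5]
       apply em_congr
       intro z hz'
       have h6 : z ≠ 0 := Complex.slitPlane_ne_zero hz'
       simp only [Pi.mul_apply]
       rw [zpow_negSucc]
       exact mul_inv_cancel₀ (pow_ne_zero _ h6)
    exact h3 (κ s) hz
  have h2 : TA (X 0) ^ J s = em D0 _ hl := by
    rw [TA, eval₂Hom_X', lg, em, em, ← map_pow]
    congr 1
    refine Subtype.ext (funext fun z => ?_)
    show Complex.log (z + ((0 : ℕ) : ℂ)) ^ J s = Complex.log z ^ J s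
    rw [Nat.cast_zero, add_zero]
  rw [h1, h2, ← em_mul]
  rfl

include heq in
theorem T_Th (F : MvPolynomial (Fin N) (Ki (RatFunc ℂ))) : T D0 (Th f hf F) = Th f hf (sh (tK tau) (inc J κ) F) := by
  have h : (T D0).comp (Th f hf) = (Th f hf).comp (sh (tK tau) (inc J κ)) := by
    apply ringHom_ext
    · intro c
      simp only [RingHom.comp_apply]
      rw [sh_C, Th, eval₂Hom_C, eval₂Hom_C, T_pK]
    · intro s
      simp only [RingHom.comp_apply]
      have hz : AnalyticOnNhd ℂ (fun z : ℂ => z ^ κ s * Complex.log z ^ J s) D0.U := by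
        intro z hz
        exact (analyticAt_id.zpow (Complex.slitPlane_ne_zero hz)).mul ((analyticAt_id.clog hz).pow _)
      rw [sh_X, map_add, Th, eval₂Hom_X', eval₂Hom_C, pK_inc J κ s hz, T_em, ← em_add]
      apply em_congr
      intro z hz'
      exact heq s z hz'
  exact congrArg (fun g : MvPolynomial (Fin N) (Ki (RatFunc ℂ)) →+* E D0 => g F) h

include heq in
theorem Th_inj (hinj : Function.Injective fun s => (J s, κ s)) (hneg : ∀ s, J s = 0 → κ s < 0) :
    Function.Injective (Th f hf) := by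
  rw [injective_iff_map_eq_zero]
  intro F hF
  refine ideal_bot (tK tau) (inc J κ) (RingHom.ker (Th f hf)) ?_ ?_
    (fun l l0 hl h => HK_add J κ hinj hneg l l0 hl h) F hF
  · intro G hG
    rw [RingHom.mem_ker] at hG ⊢
    rw [← T_Th J κ f hf heq, hG, map_zero]
  · exact RingHom.ker_ne_top _

/-- the Gamma function -/
noncomputable def Gf : E D0 := em D0 Complex.Gamma fun z hz => Pool.Agent.Y456.GJ.gamma_an z (by
  intro m hm
  rw [hm] at hz
  rcases Complex.mem_slitPlane_iff.1 hz with h | h
  · simp at h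
    have : (0 : ℝ) ≤ m := Nat.cast_nonneg m
    linarith
  · simp at h)

theorem slit_Sd {z : ℂ} (hz : z ∈ Complex.slitPlane) : z ∈ Pool.Agent.Y456.GJ.Sd := by
  intro m hm
  rw [hm] at hz
  rcases Complex.mem_slitPlane_iff.1 hz with h | h
  · simp at h
    have : (0 : ℝ) ≤ m := Nat.cast_nonneg m
    linarith
  · simp at h

theorem Gf_ne : Gf ≠ 0 := by
  intro h
  rw [Gf, em_eq_zero_iff] at h
  have := h 1 Complex.one_mem_slitPlane
  rw [Complex.Gamma_one] at this
  exact one_ne_zero this

theorem T_Gf : T D0 Gf = pK (io (C XX)) * Gf := by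
  rw [pK_io, TA, eval₂Hom_C, ph_XX, Gf, T_em, ← em_mul]
  apply em_congr
  intro z hz
  exact Complex.Gamma_add_one z (Complex.slitPlane_ne_zero hz)

include heq in
theorem poly_indep (hinj : Function.Injective fun s => (J s, κ s)) (hneg : ∀ s, J s = 0 → κ s < 0)
    (G : Polynomial (MvPolynomial (Fin N) (Ki (RatFunc ℂ)))) (hG : Polynomial.eval₂ (Th f hf) Gf G = 0) : G = 0 := by
  refine mult_indep (tK tau) (inc J κ) (Th f hf) (Th_inj J κ f hf heq hinj hneg) (T D0) (T_Th J κ f hf heq)
    (io (C XX)) ?_ Gf ?_ ?_ ?_ G hG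
  · rw [Ne, map_eq_zero_iff _ io_inj, map_eq_zero_iff _ (C_injective _ _)]
    exact XX_ne
  · rw [Th, eval₂Hom_C]
    exact T_Gf
  · intro n z hz
    exact (mul_eq_zero.1 hz).resolve_right (pow_ne_zero _ Gf_ne)
  · intro v e hv h
    exact HK_mul v e hv h

/-- the family of all functions: `Γ`, the solutions, the logarithms -/
noncomputable def fam (r : ℕ) (f : Fin N → ℂ → ℂ) (i : Option (Fin N ⊕ Fin r)) (z : ℂ) : ℂ :=
  match i with
  | none => Complex.Gamma z
  | some (Sum.inl s) => f s z
  | some (Sum.inr i) => Complex.log (z + ((i : ℕ) : ℂ))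

include hf in
theorem fam_an (r : ℕ) (i : Option (Fin N ⊕ Fin r)) : AnalyticOnNhd ℂ (fam r f i) Complex.slitPlane := by
  rcases i with _ | s | i
  · exact fun z hz => Pool.Agent.Y456.GJ.gamma_an z (slit_Sd hz)
  · exact hf s
  · exact fun z hz => (analyticAt_id.add analyticAt_const).clog (slit_add_nat hz i)

/-- the values as a function on the variables -/
noncomputable def val (r : ℕ) (f : Fin N → ℂ → ℂ) (z : ℂ) (o : Option (Option (Fin N ⊕ Fin r))) : ℂ :=
  o.elim z fun y => fam r f y z

include hf in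
theorem val_an (r : ℕ) (P : MvPolynomial (Option (Option (Fin N ⊕ Fin r))) ℂ) :
    AnalyticOnNhd ℂ (fun z => eval (val r f z) P) Complex.slitPlane := by
  induction P using MvPolynomial.induction_on with
  | C a =>
    simp only [eval_C]
    exact analyticOnNhd_const
  | add p q hp hq =>
    simp only [map_add]
    exact hp.add hq
  | mul_X p i hp =>
    simp only [map_mul, eval_X]
    refine hp.mul ?_
    rcases i with _ | y
    · exact analyticOnNhd_id
    · exact fam_an f hf r y

end Pool.Agent.Y456.DF
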