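import Pool.Agent.Y456.DF.Mer
import Pool.Agent.Y456.GJ.Mult

set_option autoImplicit false

/-!
# Towers of multiplicative difference equations
-/

open MvPolynomial

namespace Pool.Agent.Y456.DF

open Pool.Agent.Y456.GJ (sh sh_C mult_indep)

section one

variable {K : Type} [Field K] (τ : K →+* K) (a : K)

/-- the shift `X ↦ a X` on polynomials -/
noncomputable def mP : Polynomial K →+* Polynomial K :=
  Polynomial.eval₂RingHom ((Polynomial.C).comp τ) (Polynomial.C a * Polynomial.X)

theorem mP_C (c : K) : mP τ a (Polynomial.C c) = Polynomial.C (τ c) := by simp [mP]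

theorem mP_X : mP τ a Polynomial.X = Polynomial.C a * Polynomial.X := by simp [mP]

theorem mP_eq (p : Polynomial K) : mP τ a p = (p.map τ).comp (Polynomial.C a * Polynomial.X) := by
  rw [mP, Polynomial.coe_eval₂RingHom, Polynomial.comp, Polynomial.eval₂_map]

theorem natDegree_mP (ha : a ≠ 0) (p : Polynomial K) : (mP τ a p).natDegree = p.natDegree := by
  rw [mP_eq, Polynomial.natDegree_comp, Polynomial.natDegree_C_mul_X a ha, mul_one,
    Polynomial.natDegree_map_eq_of_injective τ.injective]

theorem mP_inj (ha : a ≠ 0) : Function.Injective (mP τ a) := by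
  rw [injective_iff_map_eq_zero]
  intro p hp
  by_contra hne
  have h1 := natDegree_mP τ a ha p
  rw [hp, Polynomial.natDegree_zero] at h1
  obtain ⟨c, hc⟩ := Polynomial.natDegree_eq_zero.1 h1.symm
  rw [← hc, mP_C, map_eq_zero_iff _ Polynomial.C_injective, map_eq_zero_iff _ τ.injective] at hp
  rw [← hc, hp, map_zero] at hne
  exact hne rfl

/-- the next field -/
abbrev Nx (K : Type) [Field K] : Type := FractionRing (Polynomial K)

/-- the shift on the next field -/
noncomputable def mK (ha : a ≠ 0) : Nx K →+* Nx K := IsFractionRing.map (mP_inj τ a ha)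

theorem mK_alg (ha : a ≠ 0) (p : Polynomial K) :
    mK τ a ha (algebraMap (Polynomial K) (Nx K) p) = algebraMap (Polynomial K) (Nx K) (mP τ a p) := by
  rw [mK, IsFractionRing.map, IsLocalization.map_eq]

theorem Nx_inj : Function.Injective (algebraMap (Polynomial K) (Nx K)) := IsFractionRing.injective _ _

/-- the multiplicative condition for the next field -/
theorem H_next (ha : a ≠ 0) (v : Nx K) (e : ℕ) (hv : v ≠ 0)
    (h : mK τ a ha v = algebraMap (Polynomial K) (Nx K) Polynomial.X ^ e * v) : e = 0 := by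
  obtain ⟨p, q, hq, hu⟩ := IsFractionRing.div_surjective (A := Polynomial K) v
  have hq0 : q ≠ 0 := mem_nonZeroDivisors_iff_ne_zero.1 hq
  have hqi : algebraMap (Polynomial K) (Nx K) q ≠ 0 := (map_ne_zero_iff _ Nx_inj).2 hq0
  have hp0 : p ≠ 0 := by
    rintro rfl
    rw [map_zero, zero_div] at hu
    exact hv hu.symm
  have hu' : v * algebraMap (Polynomial K) (Nx K) q = algebraMap (Polynomial K) (Nx K) p := by
    rw [← hu]
    exact div_mul_cancel₀ _ hqi
  have h1 : mP τ a p * q = Polynomial.X ^ e * p * mP τ a q := by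
    apply Nx_inj
    simp only [map_mul, map_pow]
    rw [← mK_alg τ a ha, ← mK_alg τ a ha, ← hu', map_mul, h]
    ring
  have h2 := congrArg Polynomial.natDegree h1
  have hsp : mP τ a p ≠ 0 := (map_ne_zero_iff _ (mP_inj τ a ha)).2 hp0
  have hsq : mP τ a q ≠ 0 := (map_ne_zero_iff _ (mP_inj τ a ha)).2 hq0
  rw [Polynomial.natDegree_mul hsp hq0,
    Polynomial.natDegree_mul (mul_ne_zero (pow_ne_zero _ Polynomial.X_ne_zero) hp0) hsq,
    Polynomial.natDegree_mul (pow_ne_zero _ Polynomial.X_ne_zero) hp0, natDegree_mP τ a ha, natDegree_mP τ a ha,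
    Polynomial.natDegree_X_pow] at h2
  omega

end one

section tower

variable (D : Dom)

/-- a multiplicative variable is transcendental -/
theorem trans_of (K : Type) [Field K] (τ : K →+* K) (φ : K →+* E D) (hφ : ∀ u, T D (φ u) = φ (τ u)) (a : K) (ha : a ≠ 0)
    (H : ∀ (v : K) (e : ℕ), v ≠ 0 → τ v = a ^ e * v → e = 0) (y : E D) (hy0 : y ≠ 0) (hy : T D y = φ a * y)
    (P : Polynomial K) (hP : Polynomial.eval₂ φ y P = 0) : P = 0 := by
  classical
  let Θ : MvPolynomial (Fin 0) K →+* E D := eval₂Hom φ (fun i => i.elim0)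
  have hC : ∀ F : MvPolynomial (Fin 0) K, ∃ c, F = C c := fun F =>
    (C_surjective (Fin 0) F).imp fun c hc => hc.symm
  have hΘC : ∀ c, Θ (C c) = φ c := fun c => by simp [Θ]
  have hΘ : Function.Injective Θ := by
    intro F G hFG
    obtain ⟨c, rfl⟩ := hC F
    obtain ⟨d, rfl⟩ := hC G
    rw [hΘC, hΘC] at hFG
    rw [φ.injective hFG]
  have hT : ∀ F, T D (Θ F) = Θ (sh τ (fun i => i.elim0) F) := by
    intro F
    obtain ⟨c, rfl⟩ := hC F
    rw [hΘC, hφ, sh_C, hΘC]
  have h1 : Polynomial.eval₂ Θ y (P.map (C : K →+* MvPolynomial (Fin 0) K)) = 0 := by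
    rw [Polynomial.eval₂_map]
    have : Θ.comp C = φ := RingHom.ext hΘC
    rw [this, hP]
  have h2 := mult_indep τ (fun i : Fin 0 => i.elim0) Θ hΘ (T D) hT a ha y (by rw [hy, hΘC])
    (fun n z hz => (mul_eq_zero.1 hz).resolve_right (pow_ne_zero _ hy0)) H _ h1
  exact (Polynomial.map_eq_zero_iff (C_injective _ _)).1 h2

/-- **towers** -/
theorem tower (R : ℕ) : ∀ (K : Type) [Field K] (τ : K →+* K) (φ : K →+* E D) (_ : ∀ u, T D (φ u) = φ (τ u)) (a : K)
    (_ : a ≠ 0) (_ : ∀ (v : K) (e : ℕ), v ≠ 0 → τ v = a ^ e * v → e = 0) (g : Fin R → E D) (_ : ∀ i, g i ≠ 0)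
    (_ : ∀ i : Fin R, (i : ℕ) = 0 → T D (g i) = φ a * g i)
    (_ : ∀ i j : Fin R, (j : ℕ) = i + 1 → T D (g j) = g i * g j)
    (F : MvPolynomial (Fin R) K) (_ : eval₂ φ g F = 0), F = 0 := by
  classical
  induction R with
  | zero =>
    intro K _ τ φ _ a _ _ g _ _ _ F hF
    obtain ⟨c, rfl⟩ := C_surjective (Fin 0) F
    rw [eval₂_C, map_eq_zero_iff _ φ.injective] at hF
    rw [hF, map_zero]
  | succ R ih =>
    intro K _ τ φ hφ a ha H g hg h0 hs F hF
    -- the next field
    let φP : Polynomial K →+* E D := Polynomial.eval₂RingHom φ (g 0)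
    have hφP : Function.Injective φP := by
      rw [injective_iff_map_eq_zero]
      intro P hP
      exact trans_of D K τ φ hφ a ha H (g 0) (hg 0) (h0 0 rfl) P hP
    let φ' : Nx K →+* E D := IsFractionRing.lift hφP
    have hφ'a : ∀ p, φ' (algebraMap (Polynomial K) (Nx K) p) = φP p := fun p => IsFractionRing.lift_algebraMap _ _
    have hTP : ∀ p, T D (φP p) = φP (mP τ a p) := by
      intro p
      have h : (T D).comp φP = φP.comp (mP τ a) := by
        apply Polynomial.ringHom_ext
        · intro c
          simp only [RingHom.comp_apply]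
          rw [mP_C]
          simp [φP, hφ]
        · simp only [RingHom.comp_apply]
          rw [mP_X]
          simp only [φP, Polynomial.coe_eval₂RingHom, Polynomial.eval₂_X, Polynomial.eval₂_mul, Polynomial.eval₂_C]
          exact h0 0 rfl
      exact congrArg (fun f : Polynomial K →+* E D => f p) h
    have hφ' : ∀ u, T D (φ' u) = φ' (mK τ a ha u) := by
      intro u
      have h : (T D).comp φ' = φ'.comp (mK τ a ha) := by
        apply IsLocalization.ringHom_ext (nonZeroDivisors (Polynomial K))
        apply RingHom.ext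
        intro p
        simp only [RingHom.comp_apply]
        rw [hφ'a, hTP, mK_alg, hφ'a]
      exact congrArg (fun f : Nx K →+* E D => f u) h
    -- regrouping
    let G : MvPolynomial (Fin R) (Nx K) :=
      map (algebraMap (Polynomial K) (Nx K)) (optionEquivRight K (Fin R) (rename (finSuccEquiv R) F))
    have hG : eval₂ φ' (fun i : Fin R => g i.succ) G = eval₂ φ g F := by
      have h : ((eval₂Hom φ' (fun i : Fin R => g i.succ)).comp (map (algebraMap (Polynomial K) (Nx K)))).comp
          (((optionEquivRight K (Fin R)).toRingEquiv.toRingHom).comp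
            ((rename (finSuccEquiv R) : MvPolynomial (Fin (R + 1)) K →ₐ[K] _) :
              MvPolynomial (Fin (R + 1)) K →+* MvPolynomial (Option (Fin R)) K)) = eval₂Hom φ g := by
        apply ringHom_ext
        · intro c
          simp [hφ'a, φP]
        · intro i
          refine Fin.cases ?_ (fun j => ?_) i
          · simp [hφ'a, φP]
          · simp
      exact congrArg (fun f : MvPolynomial (Fin (R + 1)) K →+* E D => f F) h
    have hG0 : G = 0 := by
      refine ih (Nx K) (mK τ a ha) φ' hφ' (algebraMap (Polynomial K) (Nx K) Polynomial.X) ?_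
        (fun v e hv h => H_next τ a ha v e hv h) (fun i => g i.succ) (fun i => hg i.succ) ?_ ?_ G ?_
      · rw [Ne, map_eq_zero_iff _ Nx_inj]
        exact Polynomial.X_ne_zero
      · intro i hi
        have h1 : φ' (algebraMap (Polynomial K) (Nx K) Polynomial.X) = g 0 := by
          rw [hφ'a]
          simp [φP]
        rw [h1]
        exact hs 0 i.succ (by simp [hi])
      · intro i j hij
        exact hs i.succ j.succ (by simp [hij])
      · rw [hG, hF]
    have h1 : optionEquivRight K (Fin R) (rename (finSuccEquiv R) F) = 0 :=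
      (map_eq_zero_iff _ (map_injective _ Nx_inj)).1 hG0
    have h2 : rename (finSuccEquiv R) F = 0 := (map_eq_zero_iff _ (AlgEquiv.injective (optionEquivRight K (Fin R)))).1 h1
    exact (map_eq_zero_iff _ (rename_injective _ (finSuccEquiv R).injective)).1 h2

end tower

end Pool.Agent.Y456.DF
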