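import Pool.Agent.Y456.DF.LogMain
import Pool.Agent.Y456.DF.Tower
import Pool.Agent.Y456.DF.AddFrac
import Pool.Agent.Y456.GJ.Germ
import Pool.Agent.Y124.NFPoly

set_option autoImplicit false

/-!
# Multiple gamma functions together with the jet of `log Γ`
-/

open MvPolynomial Filter Topology NumberField

namespace Pool.Agent.Y456.DF

open Pool.Agent.Y456.GJ (tau tau_alg XX XX_ne alg_inj sh sh_C sh_X ideal_bot jf jf_an jf_some_add_one H_add H_mul bb)
open Pool.Agent.Y120 (HtLe)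

theorem ph_inv_pow (k : ℕ) (h : AnalyticOnNhd ℂ (fun z : ℂ => -(z ^ k)⁻¹) D0.U) :
    ph D0 (-(XX ^ k)⁻¹) = em D0 _ h := by
  have h1 : AnalyticOnNhd ℂ (fun z : ℂ => z ^ k) D0.U := fun z _ => analyticAt_id.pow k
  have h2 : ph D0 (XX ^ k) = em D0 _ h1 := by
    rw [map_pow, ph_XX, em, em, ← map_pow]
    rfl
  have h3 : AnalyticOnNhd ℂ (fun z : ℂ => (z ^ k)⁻¹) D0.U := fun z hz =>
    (analyticAt_id.pow k).inv (pow_ne_zero _ (Complex.slitPlane_ne_zero hz))
  have h4 : (ph D0 (XX ^ k))⁻¹ = em D0 _ h3 := by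
    rw [h2]
    apply inv_eq_of_mul_eq_one_right
    rw [← em_mul]
    have h5 : (1 : E D0) = em D0 (fun _ => 1) analyticOnNhd_const := by
      rw [em, ← map_one (algebraMap (Hol D0) (E D0))]
      rfl
    rw [h5]
    apply em_congr
    intro z hz
    exact mul_inv_cancel₀ (pow_ne_zero _ (Complex.slitPlane_ne_zero hz))
  rw [map_neg, map_inv₀, h4, em, em, ← map_neg]
  rfl

theorem js_an {w : ℕ} (i : Fin w) : AnalyticOnNhd ℂ (jf (some i)) D0.U := fun z hz => jf_an _ z (slit_Sd hz)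

/-- evaluation at `ψ`, `ζ (k, z)` -/
noncomputable def Tj (w : ℕ) : MvPolynomial (Fin w) (RatFunc ℂ) →+* E D0 :=
  eval₂Hom (ph D0) fun i => em D0 (jf (some i)) (js_an i)

theorem T_Tj (w : ℕ) (F : MvPolynomial (Fin w) (RatFunc ℂ)) : T D0 (Tj w F) = Tj w (sh tau (bb w) F) := by
  have h : (T D0).comp (Tj w) = (Tj w).comp (sh tau (bb w)) := by
    apply ringHom_ext
    · intro c
      simp only [RingHom.comp_apply]
      rw [sh_C, Tj, eval₂Hom_C, eval₂Hom_C, T_ph]
    · intro i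
      simp only [RingHom.comp_apply]
      have h1 : AnalyticOnNhd ℂ (fun z : ℂ => -(z ^ ((i : ℕ) + 1))⁻¹) D0.U := fun z hz =>
        ((analyticAt_id.pow _).inv (pow_ne_zero _ (Complex.slitPlane_ne_zero hz))).neg
      rw [sh_X, map_add, Tj, eval₂Hom_X', eval₂Hom_C, bb, ph_inv_pow _ h1, T_em, ← em_add]
      apply em_congr
      intro z hz
      exact jf_some_add_one i (slit_Sd hz)
  exact congrArg (fun f : MvPolynomial (Fin w) (RatFunc ℂ) →+* E D0 => f F) h

theorem Tj_inj (w : ℕ) : Function.Injective (Tj w) := by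
  rw [injective_iff_map_eq_zero]
  intro F hF
  refine ideal_bot tau (bb w) (RingHom.ker (Tj w)) ?_ ?_ (fun l l0 hl h => H_add w l l0 hl h) F hF
  · intro G hG
    rw [RingHom.mem_ker] at hG ⊢
    rw [← T_Tj, hG, map_zero]
  · exact RingHom.ker_ne_top _

/-- the field generated by `ψ`, `ζ (k, z)` -/
abbrev Kj (w : ℕ) : Type := FractionRing (MvPolynomial (Fin w) (RatFunc ℂ))

/-- its embedding -/
noncomputable def pj (w : ℕ) : Kj w →+* E D0 := IsFractionRing.lift (Tj_inj w)

theorem pj_alg (w : ℕ) (p : MvPolynomial (Fin w) (RatFunc ℂ)) : pj w (algebraMap _ (Kj w) p) = Tj w p :=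
  IsFractionRing.lift_algebraMap _ _

theorem T_pj (w : ℕ) (u : Kj w) : T D0 (pj w u) = pj w (shK tau (bb w) u) := by
  have h : (T D0).comp (pj w) = (pj w).comp (shK tau (bb w)) := by
    apply IsLocalization.ringHom_ext (nonZeroDivisors (MvPolynomial (Fin w) (RatFunc ℂ)))
    apply RingHom.ext
    intro p
    simp only [RingHom.comp_apply]
    rw [pj_alg, T_Tj, shK_alg, pj_alg]
  exact congrArg (fun f : Kj w →+* E D0 => f u) h

variable {R : ℕ} (g : Fin R → ℂ → ℂ) (hg : ∀ i, AnalyticOnNhd ℂ (g i) Complex.slitPlane)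
  (hne : ∀ i, ∃ z ∈ Complex.slitPlane, g i z ≠ 0)
  (h0 : ∀ i : Fin R, (i : ℕ) = 0 → ∀ z ∈ Complex.slitPlane, g i (z + 1) = z * g i z)
  (hs : ∀ i j : Fin R, (j : ℕ) = i + 1 → ∀ z ∈ Complex.slitPlane, g j (z + 1) = g i z * g j z)

include hne h0 hs in
theorem mg_tower (w : ℕ) (F : MvPolynomial (Fin R) (Kj w)) (hF : eval₂ (pj w) (fun i => em D0 (g i) (hg i)) F = 0) :
    F = 0 := by
  refine tower D0 R (Kj w) (shK tau (bb w)) (pj w) (T_pj w) (algebraMap (MvPolynomial (Fin w) (RatFunc ℂ)) (Kj w) (C XX)) ?_ ?_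
    (fun i => em D0 (g i) (hg i)) ?_ ?_ ?_ F hF
  · rw [Ne, map_eq_zero_iff _ fr_inj, map_eq_zero_iff _ (C_injective _ _)]
    exact XX_ne
  · intro v e hv h
    exact H_frac tau (bb w) XX XX_ne (fun v e hv h => H_mul v e hv h) v e hv h
  · intro i h
    rw [em_eq_zero_iff] at h
    obtain ⟨z, hz, hz'⟩ := hne i
    exact hz' (h z hz)
  · intro i hi
    rw [pj_alg, Tj, eval₂Hom_C, ph_XX, T_em, ← em_mul]
    apply em_congr
    intro z hz
    exact h0 i hi z hz
  · intro i j hij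
    rw [T_em, ← em_mul]
    apply em_congr
    intro z hz
    exact hs i j hij z hz

/-- all functions -/
noncomputable def mgf (w : ℕ) (g : Fin R → ℂ → ℂ) (i : Fin R ⊕ Fin w) (z : ℂ) : ℂ :=
  match i with
  | Sum.inl i => g i z
  | Sum.inr i => jf (some i) z

include hg in
theorem mgf_an (w : ℕ) (i : Fin R ⊕ Fin w) : AnalyticOnNhd ℂ (mgf w g i) Complex.slitPlane := by
  rcases i with i | i
  · exact hg i
  · exact js_an i

/-- the values as a function on the variables -/
noncomputable def mgv (w : ℕ) (g : Fin R → ℂ → ℂ) (z : ℂ) (o : Option (Fin R ⊕ Fin w)) : ℂ :=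
  o.elim z fun y => mgf w g y z

include hg in
theorem mgv_an (w : ℕ) (P : MvPolynomial (Option (Fin R ⊕ Fin w)) ℂ) :
    AnalyticOnNhd ℂ (fun z => eval (mgv w g z) P) Complex.slitPlane := by
  induction P using MvPolynomial.induction_on with
  | C a =>
    simp only [eval_C]
    exact analyticOnNhd_const
  | add p q hp hq =>
    simp only [map_add]
    exact hp.add hq
  | mul_X p i hp =>
    simp only [map_mul, eval_X]
    refine hp.mul ?_
    rcases i with _ | y
    · exact analyticOnNhd_id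
    · exact mgf_an g hg w y

/-- the coefficients -/
noncomputable def cj (w : ℕ) : MvPolynomial (Fin w) (Polynomial ℂ) →+* Kj w :=
  (algebraMap (MvPolynomial (Fin w) (RatFunc ℂ)) (Kj w)).comp (map (algebraMap (Polynomial ℂ) (RatFunc ℂ)))

theorem cj_inj (w : ℕ) : Function.Injective (cj w) := by
  rw [cj]
  simp only [RingHom.coe_comp]
  exact fr_inj.comp (map_injective _ alg_inj)

/-- regrouping -/
noncomputable def Pj (R w : ℕ) : MvPolynomial (Option (Fin R ⊕ Fin w)) ℂ →+* MvPolynomial (Fin R) (Kj w) :=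
  (MvPolynomial.map (cj w)).comp (((sumAlgEquiv (Polynomial ℂ) (Fin R) (Fin w)).toRingEquiv.toRingHom).comp
    ((optionEquivRight ℂ (Fin R ⊕ Fin w)).toRingEquiv.toRingHom))

theorem Pj_inj (R w : ℕ) : Function.Injective (Pj R w) := by
  rw [Pj]
  simp only [RingHom.coe_comp]
  refine Function.Injective.comp (map_injective _ (cj_inj w)) ?_
  exact Function.Injective.comp (sumAlgEquiv (Polynomial ℂ) (Fin R) (Fin w)).injective
    (optionEquivRight ℂ (Fin R ⊕ Fin w)).injective

include hne h0 hs hg in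
/-- **algebraic independence** -/
theorem mg_indep (w : ℕ) (P : MvPolynomial (Option (Fin R ⊕ Fin w)) ℂ)
    (h : ∀ z ∈ Complex.slitPlane, eval (mgv w g z) P = 0) : P = 0 := by
  have key : ∀ Q : MvPolynomial (Option (Fin R ⊕ Fin w)) ℂ,
      eval₂ (pj w) (fun i => em D0 (g i) (hg i)) (Pj R w Q) = em D0 _ (mgv_an g hg w Q) := by
    intro Q
    induction Q using MvPolynomial.induction_on with
    | C a =>
      have h1 : Pj R w (C a) = C (algebraMap (MvPolynomial (Fin w) (RatFunc ℂ)) (Kj w) (C (algebraMap (Polynomial ℂ) (RatFunc ℂ) (Polynomial.C a)))) := by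
        simp [Pj, cj]
      rw [h1, eval₂_C, pj_alg, Tj, eval₂Hom_C, ph_alg, pl_apply]
      apply em_congr
      intro z _
      simp
    | add p q hp hq =>
      rw [map_add, eval₂_add, hp, hq, ← em_add]
      apply em_congr
      intro z _
      simp
    | mul_X p i hp =>
      have h1 : ∀ hi : AnalyticOnNhd ℂ (fun z => mgv w g z i) D0.U,
          eval₂ (pj w) (fun i => em D0 (g i) (hg i)) (Pj R w (X i)) = em D0 _ hi →
          eval₂ (pj w) (fun i => em D0 (g i) (hg i)) (Pj R w (p * X i)) = em D0 _ (mgv_an g hg w (p * X i)) := by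
        intro hi h2
        rw [map_mul, eval₂_mul, hp, h2, ← em_mul]
        apply em_congr
        intro z _
        simp
      rcases i with _ | i | i
      · apply h1 analyticOnNhd_id
        have h2 : Pj R w (X none) = C (algebraMap (MvPolynomial (Fin w) (RatFunc ℂ)) (Kj w) (C XX)) := by
          simp [Pj, cj, XX]
        rw [h2, eval₂_C, pj_alg, Tj, eval₂Hom_C, ph_XX]
        rfl
      · apply h1 (mgf_an g hg w (Sum.inl i))
        have h2 : Pj R w (X (some (Sum.inl i))) = X i := by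
          simp [Pj]
        rw [h2, eval₂_X]
        rfl
      · apply h1 (mgf_an g hg w (Sum.inr i))
        have h2 : Pj R w (X (some (Sum.inr i))) = C (algebraMap (MvPolynomial (Fin w) (RatFunc ℂ)) (Kj w) (X i)) := by
          simp [Pj, cj]
        rw [h2, eval₂_C, pj_alg, Tj, eval₂Hom_X']
        rfl
  have h1 : eval₂ (pj w) (fun i => em D0 (g i) (hg i)) (Pj R w P) = 0 := by
    rw [key, em_eq_zero_iff]
    exact h
  exact (map_eq_zero_iff _ (Pj_inj R w)).1 (mg_tower g hg hne h0 hs w _ h1)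

include hne h0 hs hg in
theorem mg_main {h : Type} [Fintype h] (m n d w : ℕ) (L : Set ℂ) (hL : IsCompact L) (hL' : L ⊆ Complex.slitPlane)
    (A ε : ℝ) (hε : 0 < ε) :
    ∃ B C T₀ : ℝ, 0 ≤ C ∧ 2 ≤ T₀ ∧ ∀ (K : Type) [Field K] [NumberField K], Module.finrank ℚ K ≤ m → ∀ (io : K →+* ℂ)
      (ξ : h → ℂ) (T : ℝ), T₀ ≤ T →
      (Pool.Agent.Y124.ExcNF n d K io ξ (fun t (i : Fin R ⊕ Fin w) => mgf w g i t) L A B T).Finite ∧
      ((Pool.Agent.Y124.ExcNF n d K io ξ (fun t (i : Fin R ⊕ Fin w) => mgf w g i t) L A B T).ncard : ℝ) ≤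
        C * T ^ ε * (({x : K | HtLe K T x ∧ io x ∈ L}.ncard : ℝ)) ^ (n - 1) := by
  have hloc : ∀ t0 ∈ L, Pool.Agent.Y124.LocInd (𝕜 := ℂ) (fun i : Fin R ⊕ Fin w => mgf w g i) t0 := by
    intro t0 ht0 P hP
    apply mg_indep g hg hne h0 hs w P
    intro z hz
    exact (mgv_an g hg w P).eqOn_zero_of_preconnected_of_eventuallyEq_zero pc_slit (hL' ht0) hP hz
  exact Pool.Agent.Y124.excNF m n d _ L (fun gg => Pool.Agent.Y124.oneV_of gg (fun i : Fin R ⊕ Fin w => mgf w g i) L hL
    (fun i t ht => mgf_an g hg w i t (hL' ht)) hloc) A ε hε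

end Pool.Agent.Y456.DF
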