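import Mathlib

set_option autoImplicit false

/-!
# The field of fractions of the ring of analytic functions on a domain stable under `z ↦ z + 1`
-/

open Filter Topology

namespace Pool.Agent.Y456.DF

/-- a domain stable under the shift -/
structure Dom where
  /-- the set -/
  U : Set ℂ
  op : IsOpen U
  pc : IsPreconnected U
  ne : U.Nonempty
  sh : ∀ z ∈ U, z + 1 ∈ U

variable (D : Dom)

/-- functions on `U` which are restrictions of analytic functions -/
def Hol : Subring (D.U → ℂ) where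
  carrier := {f | ∃ g : ℂ → ℂ, AnalyticOnNhd ℂ g D.U ∧ ∀ z : D.U, f z = g z}
  mul_mem' := by
    rintro f1 f2 ⟨g1, h1, h1'⟩ ⟨g2, h2, h2'⟩
    exact ⟨g1 * g2, h1.mul h2, fun z => by simp [h1', h2']⟩
  one_mem' := ⟨1, analyticOnNhd_const, fun _ => rfl⟩
  add_mem' := by
    rintro f1 f2 ⟨g1, h1, h1'⟩ ⟨g2, h2, h2'⟩
    exact ⟨g1 + g2, h1.add h2, fun z => by simp [h1', h2']⟩
  zero_mem' := ⟨0, analyticOnNhd_const, fun _ => rfl⟩
  neg_mem' := by
    rintro f ⟨g, h, h'⟩
    exact ⟨-g, h.neg, fun z => by simp [h']⟩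

/-- the class of an analytic function -/
def mk (g : ℂ → ℂ) (hg : AnalyticOnNhd ℂ g D.U) : Hol D := ⟨fun z => g z, g, hg, fun _ => rfl⟩

theorem exists_mk (f : Hol D) : ∃ (g : ℂ → ℂ) (hg : AnalyticOnNhd ℂ g D.U), f = mk D g hg := by
  obtain ⟨f, g, hg, h⟩ := f
  exact ⟨g, hg, Subtype.ext (funext h)⟩

theorem mk_eq_iff {g g' : ℂ → ℂ} (hg : AnalyticOnNhd ℂ g D.U) (hg' : AnalyticOnNhd ℂ g' D.U) :
    mk D g hg = mk D g' hg' ↔ ∀ z ∈ D.U, g z = g' z := by
  constructor
  · intro h z hz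
    exact congrFun (congrArg Subtype.val h) ⟨z, hz⟩
  · intro h
    exact Subtype.ext (funext fun z => h z z.2)

theorem mk_eq_zero_iff {g : ℂ → ℂ} (hg : AnalyticOnNhd ℂ g D.U) :
    mk D g hg = 0 ↔ ∀ z ∈ D.U, g z = 0 := by
  constructor
  · intro h z hz
    exact congrFun (congrArg Subtype.val h) ⟨z, hz⟩
  · intro h
    exact Subtype.ext (funext fun z => h z z.2)

instance : Nontrivial (Hol D) := by
  refine ⟨0, 1, fun h => ?_⟩
  obtain ⟨z, hz⟩ := D.ne
  have := congrFun (congrArg Subtype.val h) ⟨z, hz⟩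
  simp at this

/-- a function vanishing near a point vanishes -/
theorem eq_zero_of_near {g : ℂ → ℂ} (hg : AnalyticOnNhd ℂ g D.U) {z0 : ℂ} (hz0 : z0 ∈ D.U)
    (h : ∀ᶠ z in 𝓝 z0, g z = 0) : ∀ z ∈ D.U, g z = 0 := fun z hz =>
  hg.eqOn_zero_of_preconnected_of_eventuallyEq_zero D.pc hz0 h hz

instance : NoZeroDivisors (Hol D) := by
  refine ⟨fun {a b} hab => ?_⟩
  obtain ⟨f, hf, rfl⟩ := exists_mk D a
  obtain ⟨g, hg, rfl⟩ := exists_mk D b
  have h : ∀ z ∈ D.U, f z * g z = 0 := by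
    intro z hz
    exact congrFun (congrArg Subtype.val hab) ⟨z, hz⟩
  by_contra hcon
  push Not at hcon
  obtain ⟨h1, h2⟩ := hcon
  apply h2
  rw [mk_eq_zero_iff]
  have h3 : ∃ z0 ∈ D.U, f z0 ≠ 0 := by
    by_contra h4
    push Not at h4
    exact h1 ((mk_eq_zero_iff D hf).2 h4)
  obtain ⟨z0, hz0, hne⟩ := h3
  apply eq_zero_of_near D hg hz0
  filter_upwards [(hf z0 hz0).continuousAt.eventually_ne hne, D.op.mem_nhds hz0] with z h5 h6
  exact (mul_eq_zero.1 (h z h6)).resolve_left h5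

instance : IsDomain (Hol D) := NoZeroDivisors.to_isDomain _

/-- the field -/
abbrev E : Type := FractionRing (Hol D)

theorem an_shift {g : ℂ → ℂ} (hg : AnalyticOnNhd ℂ g D.U) : AnalyticOnNhd ℂ (fun z => g (z + 1)) D.U := by
  intro z hz
  have h1 : AnalyticAt ℂ (fun z : ℂ => z + 1) z := analyticAt_id.add analyticAt_const
  exact AnalyticAt.comp (g := g) (f := fun z : ℂ => z + 1) (hg _ (D.sh z hz)) h1

/-- the shift -/
def shR : Hol D →+* Hol D where
  toFun f := ⟨fun z => f.1 ⟨z + 1, D.sh z z.2⟩, by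
    obtain ⟨f, g, hg, h⟩ := f
    exact ⟨fun z => g (z + 1), an_shift D hg, fun z => h _⟩⟩
  map_one' := rfl
  map_zero' := rfl
  map_add' _ _ := rfl
  map_mul' _ _ := rfl

theorem shR_mk (g : ℂ → ℂ) (hg : AnalyticOnNhd ℂ g D.U) :
    shR D (mk D g hg) = mk D (fun z => g (z + 1)) (an_shift D hg) := rfl

theorem shR_inj : Function.Injective (shR D) := by
  rw [injective_iff_map_eq_zero]
  intro f hf
  obtain ⟨g, hg, rfl⟩ := exists_mk D f
  rw [shR_mk, mk_eq_zero_iff] at hf
  rw [mk_eq_zero_iff]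
  obtain ⟨z0, hz0⟩ := D.ne
  apply eq_zero_of_near D hg (D.sh z0 hz0)
  have h1 : ∀ᶠ z in 𝓝 (z0 + 1), z - 1 ∈ D.U := by
    have h2 : Tendsto (fun z : ℂ => z - 1) (𝓝 (z0 + 1)) (𝓝 z0) := by
      have h3 : Continuous fun z : ℂ => z - 1 := by fun_prop
      have := h3.tendsto (z0 + 1)
      rwa [add_sub_cancel_right] at this
    exact h2.eventually (D.op.mem_nhds hz0)
  filter_upwards [h1] with z hz
  have := hf (z - 1) hz
  rwa [sub_add_cancel] at this

/-- the shift on the field -/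
noncomputable def T : E D →+* E D := IsFractionRing.map (shR_inj D)

/-- the class in the field of an analytic function -/
noncomputable def em (g : ℂ → ℂ) (hg : AnalyticOnNhd ℂ g D.U) : E D := algebraMap (Hol D) (E D) (mk D g hg)

theorem T_em (g : ℂ → ℂ) (hg : AnalyticOnNhd ℂ g D.U) :
    T D (em D g hg) = em D (fun z => g (z + 1)) (an_shift D hg) := by
  rw [em, T, IsFractionRing.map, IsLocalization.map_eq]
  rfl

theorem em_eq_zero_iff {g : ℂ → ℂ} (hg : AnalyticOnNhd ℂ g D.U) :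
    em D g hg = 0 ↔ ∀ z ∈ D.U, g z = 0 := by
  rw [em, map_eq_zero_iff _ (IsFractionRing.injective (Hol D) (E D)), mk_eq_zero_iff]

theorem em_eq_iff {g g' : ℂ → ℂ} (hg : AnalyticOnNhd ℂ g D.U) (hg' : AnalyticOnNhd ℂ g' D.U) :
    em D g hg = em D g' hg' ↔ ∀ z ∈ D.U, g z = g' z := by
  rw [em, em, (IsFractionRing.injective (Hol D) (E D)).eq_iff, mk_eq_iff]

theorem em_congr {g g' : ℂ → ℂ} (hg : AnalyticOnNhd ℂ g D.U) (hg' : AnalyticOnNhd ℂ g' D.U)
    (h : ∀ z ∈ D.U, g z = g' z) : em D g hg = em D g' hg' := (em_eq_iff D hg hg').2 h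

theorem em_add {g g' : ℂ → ℂ} (hg : AnalyticOnNhd ℂ g D.U) (hg' : AnalyticOnNhd ℂ g' D.U) :
    em D (g + g') (hg.add hg') = em D g hg + em D g' hg' := by
  rw [em, em, em, ← map_add]
  rfl

theorem em_mul {g g' : ℂ → ℂ} (hg : AnalyticOnNhd ℂ g D.U) (hg' : AnalyticOnNhd ℂ g' D.U) :
    em D (g * g') (hg.mul hg') = em D g hg * em D g' hg' := by
  rw [em, em, em, ← map_mul]
  rfl

/-- polynomials -/
noncomputable def pl : Polynomial ℂ →+* E D :=
  (algebraMap (Hol D) (E D)).comp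
    { toFun := fun p => mk D (fun z => p.eval z) fun z _ => p.differentiable.analyticAt z
      map_one' := by
        refine Subtype.ext (funext fun z => ?_)
        simp [mk]
      map_zero' := by
        refine Subtype.ext (funext fun z => ?_)
        simp [mk]
      map_add' := fun p q => by
        refine Subtype.ext (funext fun z => ?_)
        simp [mk]
      map_mul' := fun p q => by
        refine Subtype.ext (funext fun z => ?_)
        simp [mk] }

theorem pl_apply (p : Polynomial ℂ) :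
    pl D p = em D (fun z => p.eval z) (fun z _ => p.differentiable.analyticAt z) := rfl

theorem pl_inj : Function.Injective (pl D) := by
  rw [injective_iff_map_eq_zero]
  intro p hp
  rw [pl_apply, em_eq_zero_iff] at hp
  obtain ⟨z0, hz0⟩ := D.ne
  have h1 : (D.U).Infinite := infinite_of_mem_nhds z0 (D.op.mem_nhds hz0)
  exact Polynomial.eq_zero_of_infinite_isRoot p (h1.mono fun z hz => hp z hz)

end Pool.Agent.Y456.DF
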